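import Pool.Agent.Helper228.GM.Defs
import Pool.Agent.Helper228.MM.All

open MeasureTheory Filter Topology

namespace Pool.Agent.Helper228.GM
open Pool.Agent.Helper228.MM

theorem m_model :
    (∀ n : ℕ, 1 ≤ n → IsProbabilityMeasure (model n)) ∧
    (∀ n : ℕ, 1 ≤ n → Integrable (fun x => Real.exp (energy n x)) ∧
      0 < ∫ x, Real.exp (energy n x)) ∧
    (∀ (n : ℕ), 1 ≤ n → ∀ (g : (Fin n → Fin n → ℝ) → ℝ), Continuous g → ∀ (C : ℝ) (N : ℕ),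
      (∀ x, |g x| ≤ C * (1 + qf n x) ^ N) → Integrable g (model n)) ∧
    (∀ n k : ℕ, Continuous (tk n k)) ∧
    (∀ n k : ℕ, 1 ≤ n → ∃ C : ℝ, 0 ≤ C ∧ ∀ x, |tk n k x| ≤ C * (1 + qf n x) ^ k) ∧
    (∀ n k : ℕ, ∀ x, (tk n k x) ^ 2 ≤ tk n (2 * k) x) ∧
    (∀ j : ℕ, ∃ K : ℝ, 0 ≤ K ∧ ∀ n, 1 ≤ n → ∫ x, tk n (2 * j) x ∂(model n) ≤ K) ∧
    (∀ (k : ℕ) (ε : ℝ), 0 < ε → ∃ C : ℝ, 0 ≤ C ∧ ∀ n : ℕ, 1 ≤ n →
      (model n).real {x | ε < |tk n k x - MM.mom k|} ≤ C / (n : ℝ) ^ 2) ∧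
    (∀ (n : ℕ) (f : (Fin n → Fin n → ℝ) → ℝ),
      ∫ x, f x ∂(model n) = ∫ x, (Real.exp (energy n x) / ∫ y, Real.exp (energy n y)) • f x) := by
  refine ⟨fun n hn => (model_prob n hn).1, fun n hn => (model_prob n hn).2,
    fun n hn g hg C N h => (model_int n hn g hg C N h).1, fun n k => (energy_cont n).2.2 k,
    fun n k hn => tk_bound n k hn, ?_, moment_bound, prob_conv, fun n f => integral_tilted _ _⟩
  intro n k x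
  obtain ⟨lam, hl⟩ := tk_eigen n x
  rw [hl, hl]
  exact (mean_ineq n lam).2.1 k

end Pool.Agent.Helper228.GM
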