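import Pool.Agent.Helper228.GM.Defs
import Pool.Agent.Helper228.GM.P_m_model

/-!
Definitions for the quartic one-matrix model `P(A) = A^4/4 - A^2` (MP_58f2bb_an).
-/

open MeasureTheory Filter Topology

namespace Pool.Agent.Helper228.GM
open Pool.Agent.Helper228.MM


theorem g_Lp_qf (n : ℕ) (x : Fin n → Fin n → ℝ) : 0 ≤ qf n x :=
  Finset.sum_nonneg fun _ _ => Finset.sum_nonneg fun _ _ => sq_nonneg _

theorem g_Lp_cont (n k q : ℕ) : Continuous (fun x => |tk n k x - MM.mom k| ^ q) :=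
  (((m_model.2.2.2.1 n k).sub continuous_const).abs).pow q

theorem g_Lp_int (n k q : ℕ) (hn : 1 ≤ n) :
    Integrable (fun x => |tk n k x - MM.mom k| ^ q) (model n) := by
  obtain ⟨C, hC, hb⟩ := m_model.2.2.2.2.1 n k hn
  refine m_model.2.2.1 n hn _ (g_Lp_cont n k q) ((C + |MM.mom k|) ^ q) (k * q) (fun x => ?_)
  have hq := g_Lp_qf n x
  have h1 : 1 ≤ (1 + qf n x) ^ k := one_le_pow₀ (by linarith)
  have h2 : |tk n k x - MM.mom k| ≤ (C + |MM.mom k|) * (1 + qf n x) ^ k := by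
    refine (abs_sub _ _).trans ?_
    have h3 : |MM.mom k| ≤ |MM.mom k| * (1 + qf n x) ^ k :=
      le_mul_of_one_le_right (abs_nonneg _) h1
    have := hb x
    linarith
  rw [abs_of_nonneg (pow_nonneg (abs_nonneg _) _), pow_mul, ← mul_pow]
  exact pow_le_pow_left₀ (abs_nonneg _) h2 q

theorem g_Lp_pow (n k r : ℕ) (x : Fin n → Fin n → ℝ) :
    (tk n k x) ^ (2 ^ (r + 1)) ≤ tk n (2 * (k * 2 ^ r)) x := by
  induction r with
  | zero => simpa using m_model.2.2.2.2.2.1 n k x
  | succ r ih =>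
    have h1 : (tk n k x) ^ (2 ^ (r + 1 + 1)) = ((tk n k x) ^ (2 ^ (r + 1))) ^ 2 := by
      rw [← pow_mul, ← pow_succ]
    have h0 : 0 ≤ (tk n k x) ^ (2 ^ (r + 1)) := by
      rw [pow_succ, pow_mul]
      exact sq_nonneg _
    rw [h1]
    refine (pow_le_pow_left₀ h0 ih 2).trans ?_
    have h2 := m_model.2.2.2.2.2.1 n (2 * (k * 2 ^ r)) x
    have e : 2 * (k * 2 ^ (r + 1)) = 2 * (2 * (k * 2 ^ r)) := by
      rw [pow_succ]
      ring
    rw [e]
    exact h2

theorem g_Lp_bound (k q : ℕ) : ∃ K : ℝ, 0 ≤ K ∧ ∀ n : ℕ, 1 ≤ n →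
    ∫ y, |tk n k y - MM.mom k| ^ q ∂(model n) ≤ K := by
  -- choose the power of two
  have hq : q ≤ 2 ^ (q + 1) := (Nat.lt_two_pow_self (n := q)).le.trans
    (Nat.pow_le_pow_right (by norm_num) (Nat.le_succ q))
  obtain ⟨K, hK, hKb⟩ := m_model.2.2.2.2.2.2.1 (k * 2 ^ q)
  refine ⟨1 + 2 ^ (2 ^ (q + 1) - 1) * (K + |MM.mom k| ^ (2 ^ (q + 1))), by positivity, ?_⟩
  intro n hn
  haveI := m_model.1 n hn
  obtain ⟨C, hC, hb⟩ := m_model.2.2.2.2.1 n (2 * (k * 2 ^ q)) hn
  have hint : Integrable (fun x => tk n (2 * (k * 2 ^ q)) x) (model n) :=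
    m_model.2.2.1 n hn _ (m_model.2.2.2.1 n _) C _ hb
  have hpt : ∀ x, |tk n k x - MM.mom k| ^ q ≤ 1 + 2 ^ (2 ^ (q + 1) - 1) *
      (tk n (2 * (k * 2 ^ q)) x + |MM.mom k| ^ (2 ^ (q + 1))) := by
    intro x
    have h1 : |tk n k x - MM.mom k| ^ q ≤ 1 + |tk n k x - MM.mom k| ^ (2 ^ (q + 1)) := by
      rcases le_total |tk n k x - MM.mom k| 1 with h | h
      · have h2 : |tk n k x - MM.mom k| ^ q ≤ 1 := pow_le_one₀ (abs_nonneg _) h
        have h3 : 0 ≤ |tk n k x - MM.mom k| ^ (2 ^ (q + 1)) := pow_nonneg (abs_nonneg _) _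
        linarith
      · have h2 : |tk n k x - MM.mom k| ^ q ≤ |tk n k x - MM.mom k| ^ (2 ^ (q + 1)) :=
          pow_le_pow_right₀ h hq
        linarith
    have h2 : |tk n k x - MM.mom k| ^ (2 ^ (q + 1)) ≤ 2 ^ (2 ^ (q + 1) - 1) *
        (|tk n k x| ^ (2 ^ (q + 1)) + |MM.mom k| ^ (2 ^ (q + 1))) := by
      refine (pow_le_pow_left₀ (abs_nonneg _) (abs_sub _ _) _).trans ?_
      exact add_pow_le (abs_nonneg _) (abs_nonneg _) _
    have h3 : |tk n k x| ^ (2 ^ (q + 1)) = (tk n k x) ^ (2 ^ (q + 1)) := by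
      rw [pow_succ 2 q, mul_comm, pow_mul, pow_mul, sq_abs]
    have h4 := g_Lp_pow n k q x
    rw [h3] at h2
    have h5 : (2 : ℝ) ^ (2 ^ (q + 1) - 1) *
        ((tk n k x) ^ (2 ^ (q + 1)) + |MM.mom k| ^ (2 ^ (q + 1))) ≤ 2 ^ (2 ^ (q + 1) - 1) *
        (tk n (2 * (k * 2 ^ q)) x + |MM.mom k| ^ (2 ^ (q + 1))) := by
      apply mul_le_mul_of_nonneg_left _ (by positivity)
      linarith
    linarith
  have i1 : Integrable (fun x => tk n (2 * (k * 2 ^ q)) x + |MM.mom k| ^ (2 ^ (q + 1)))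
      (model n) := hint.add (integrable_const _)
  have i2 : Integrable (fun x => (2 : ℝ) ^ (2 ^ (q + 1) - 1) *
      (tk n (2 * (k * 2 ^ q)) x + |MM.mom k| ^ (2 ^ (q + 1)))) (model n) := i1.const_mul _
  have hR : Integrable (fun x => 1 + 2 ^ (2 ^ (q + 1) - 1) *
      (tk n (2 * (k * 2 ^ q)) x + |MM.mom k| ^ (2 ^ (q + 1)))) (model n) :=
    (integrable_const _).add i2
  refine (integral_mono (g_Lp_int n k q hn) hR hpt).trans ?_
  rw [integral_add (integrable_const _) i2,
    integral_const_mul, integral_add hint (integrable_const _)]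
  simp only [integral_const, probReal_univ, smul_eq_mul, one_mul]
  have h6 := hKb n hn
  have h7 : (2 : ℝ) ^ (2 ^ (q + 1) - 1) * (∫ x, tk n (2 * (k * 2 ^ q)) x ∂(model n)
      + |MM.mom k| ^ (2 ^ (q + 1))) ≤ 2 ^ (2 ^ (q + 1) - 1) *
      (K + |MM.mom k| ^ (2 ^ (q + 1))) := by
    apply mul_le_mul_of_nonneg_left _ (by positivity)
    linarith
  linarith

theorem g_Lp (k p : ℕ) (hp : 1 ≤ p) :
    Tendsto (fun n : ℕ => ∫ y, |tk n k y - MM.mom k| ^ p ∂(model n)) atTop (𝓝 0) := by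
  obtain ⟨K, hK, hKb⟩ := g_Lp_bound k (2 * p)
  rw [tendsto_order]
  constructor
  · intro a ha
    refine Eventually.of_forall fun n => lt_of_lt_of_le ha ?_
    exact integral_nonneg fun x => pow_nonneg (abs_nonneg _) _
  · intro δ hδ
    have hε0 : 0 < min 1 (δ / 4) := lt_min one_pos (by linarith)
    obtain ⟨C, hC, hCb⟩ := m_model.2.2.2.2.2.2.2.1 k (min 1 (δ / 4)) hε0
    have hη : 0 < δ / (4 * (K + 1)) := by positivity
    generalize hεe : min 1 (δ / 4) = ε at *
    generalize hηe : δ / (4 * (K + 1)) = η at *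
    have hε1 : ε ≤ 1 := by rw [← hεe]; exact min_le_left _ _
    have hε2 : ε ≤ δ / 4 := by rw [← hεe]; exact min_le_right _ _
    have hεp : ε ^ p ≤ δ / 4 := by
      refine le_trans ?_ hε2
      calc ε ^ p ≤ ε ^ 1 := pow_le_pow_of_le_one hε0.le hε1 hp
        _ = ε := pow_one ε
    have hηK : η * K ≤ δ / 4 := by
      rw [← hηe, div_mul_eq_mul_div, div_le_div_iff₀ (by positivity) (by norm_num)]
      nlinarith
    have hlim : Tendsto (fun n : ℕ => (1 / (4 * η) * C) / (n : ℝ) ^ 2) atTop (𝓝 0) :=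
      tendsto_const_div_pow _ 2 (by norm_num)
    filter_upwards [(tendsto_order.1 hlim).2 (δ / 4) (by linarith), eventually_ge_atTop 1]
      with n hn1 hn
    haveI := m_model.1 n hn
    have hms : MeasurableSet {x | ε < |tk n k x - MM.mom k|} :=
      (isOpen_lt continuous_const ((m_model.2.2.2.1 n k).sub continuous_const).abs).measurableSet
    have hpt : ∀ x, |tk n k x - MM.mom k| ^ p ≤ ε ^ p + η * |tk n k x - MM.mom k| ^ (2 * p)
        + Set.indicator {x | ε < |tk n k x - MM.mom k|} (fun _ => 1 / (4 * η)) x := by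
      intro x
      have h0 : 0 ≤ η * |tk n k x - MM.mom k| ^ (2 * p) :=
        mul_nonneg hη.le (pow_nonneg (abs_nonneg _) _)
      by_cases hx : x ∈ {x | ε < |tk n k x - MM.mom k|}
      · rw [Set.indicator_of_mem hx, mul_comm 2 p, pow_mul]
        have hεp0 : 0 ≤ ε ^ p := pow_nonneg hε0.le _
        generalize |tk n k x - MM.mom k| ^ p = y
        have h1 : y ≤ η * y ^ 2 + 1 / (4 * η) := by
          have h2 : η * y ^ 2 + 1 / (4 * η) - y = (2 * η * y - 1) ^ 2 / (4 * η) := by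
            field_simp
            ring
          have h3 : 0 ≤ (2 * η * y - 1) ^ 2 / (4 * η) := by positivity
          linarith
        linarith
      · rw [Set.indicator_of_notMem hx, add_zero]
        have hx' : |tk n k x - MM.mom k| ≤ ε := not_lt.mp hx
        have := pow_le_pow_left₀ (abs_nonneg _) hx' p
        linarith
    have i1 : Integrable (fun x => ε ^ p + η * |tk n k x - MM.mom k| ^ (2 * p)) (model n) :=
      (integrable_const _).add ((g_Lp_int n k (2 * p) hn).const_mul _)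
    have i2 : Integrable (Set.indicator {x | ε < |tk n k x - MM.mom k|}
        (fun _ => 1 / (4 * η))) (model n) := (integrable_const _).indicator hms
    have hfin := integral_mono (g_Lp_int n k p hn) (i1.add i2) hpt
    have hcalc : ∫ x, (ε ^ p + η * |tk n k x - MM.mom k| ^ (2 * p)
        + Set.indicator {x | ε < |tk n k x - MM.mom k|} (fun _ => 1 / (4 * η)) x) ∂(model n)
        = ε ^ p + η * ∫ x, |tk n k x - MM.mom k| ^ (2 * p) ∂(model n)
          + (model n).real {x | ε < |tk n k x - MM.mom k|} * (1 / (4 * η)) := by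
      rw [integral_add i1 i2, integral_add (integrable_const _)
        ((g_Lp_int n k (2 * p) hn).const_mul _), integral_const_mul,
        integral_indicator_const _ hms]
      simp only [integral_const, probReal_univ, smul_eq_mul, one_mul]
    have hfin' : ∫ x, |tk n k x - MM.mom k| ^ p ∂(model n) ≤ ε ^ p
        + η * ∫ x, |tk n k x - MM.mom k| ^ (2 * p) ∂(model n)
          + (model n).real {x | ε < |tk n k x - MM.mom k|} * (1 / (4 * η)) := by
      rw [← hcalc]
      exact hfin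
    have h1 : η * ∫ x, |tk n k x - MM.mom k| ^ (2 * p) ∂(model n) ≤ η * K :=
      mul_le_mul_of_nonneg_left (hKb n hn) hη.le
    have h2 : (model n).real {x | ε < |tk n k x - MM.mom k|} * (1 / (4 * η))
        ≤ (1 / (4 * η) * C) / (n : ℝ) ^ 2 := by
      have h3 := mul_le_mul_of_nonneg_right (hCb n hn) (by positivity : 0 ≤ 1 / (4 * η))
      refine h3.trans (le_of_eq ?_)
      ring
    linarith

end Pool.Agent.Helper228.GM
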