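import Pool.Agent.Helper228.GM.Defs
import Pool.Agent.Helper228.MM.All

open MeasureTheory Filter Topology

namespace Pool.Agent.Helper228.GM
open Pool.Agent.Helper228.MM

theorem m_contr (n : ℕ) (X Y : Matrix (Fin n) (Fin n) ℂ) :
    (∑ j, ∑ k, Matrix.trace (X * hb n j k) * Matrix.trace (Y * hb n j k)
      = Matrix.trace (X * Y)) ∧
    (∑ j, ∑ k, Matrix.trace (X * hb n j k * Y * hb n j k)
      = Matrix.trace X * Matrix.trace Y) := ⟨sum_trace_trace n X Y, sum_trace_mid n X Y⟩

end Pool.Agent.Helper228.GM
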