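import Pool.Agent.Helper228.GM.Defs
import Pool.Agent.Helper228.GM.P_m_contr

/-!
Definitions for the quartic one-matrix model `P(A) = A^4/4 - A^2` (MP_58f2bb_an).
-/

open MeasureTheory Filter Topology

namespace Pool.Agent.Helper228.GM
open Pool.Agent.Helper228.MM


theorem list_swap {α : Type} {n : ℕ} (l : List α) (f : α → Fin n → Fin n → ℂ) :
    ∑ j, ∑ k, (l.map fun z => f z j k).sum = (l.map fun z => ∑ j, ∑ k, f z j k).sum := by
  induction l with
  | nil => simp
  | cons a l ih =>
    simp only [List.map_cons, List.sum_cons, Finset.sum_add_distrib]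
    rw [ih]

theorem wm_append (m n : ℕ) (u v : Word m) (x : Conf m n) :
    wm m n (u ++ v) x = wm m n u x * wm m n v x := by
  unfold wm
  rw [List.map_append, List.prod_append]

theorem g_alg (m n : ℕ) (hn : 1 ≤ n) (L : List (Word m)) (i : Fin (m + 1)) (w : Word m)
    (x : Conf m n) :
    ∑ j, ∑ k, (dtl m n L i j k x * Matrix.trace (wm m n w x * hb n j k)
        + tl m n L x * ((splits i w).map fun z =>
          Matrix.trace (wm m n z.1 x * hb n j k * wm m n z.2 x * hb n j k)).sum
        - (n : ℂ) * (tl m n L x * Matrix.trace (wm m n w x * hb n j k)) *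
          Matrix.trace (dV m n i x * hb n j k))
      = con m n L i w x + (n : ℂ) ^ 2 * (tl m n L x * SW m n i w x) := by
  have hn0 : (n : ℂ) ≠ 0 := by
    rw [Nat.cast_ne_zero]
    omega
  have s1 : ∑ j, ∑ k, dtl m n L i j k x * Matrix.trace (wm m n w x * hb n j k) =
      con m n L i w x := by
    unfold dtl con
    simp_rw [← List.sum_map_mul_right]
    rw [list_swap]
    congr 1
    apply List.map_congr_left
    intro z _
    have e1 : ∀ j k, ((splits i z.1).map fun y =>
        Matrix.trace (wm m n y.1 x * hb n j k * wm m n y.2 x) / n).sum * tl m n z.2 x *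
          Matrix.trace (wm m n w x * hb n j k) =
        ((splits i z.1).map fun y =>
          Matrix.trace (wm m n y.1 x * hb n j k * wm m n y.2 x) / n *
            Matrix.trace (wm m n w x * hb n j k)).sum * tl m n z.2 x := by
      intro j k
      rw [List.sum_map_mul_right]
      ring
    simp_rw [List.sum_map_mul_right]
    simp_rw [e1]
    simp_rw [← Finset.sum_mul]
    congr 1
    rw [list_swap]
    congr 1
    apply List.map_congr_left
    intro y _
    have e2 : ∀ j k, Matrix.trace (wm m n y.1 x * hb n j k * wm m n y.2 x) / n *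
        Matrix.trace (wm m n w x * hb n j k) =
        (Matrix.trace ((wm m n y.2 x * wm m n y.1 x) * hb n j k) *
          Matrix.trace (wm m n w x * hb n j k)) / n := by
      intro j k
      rw [Matrix.trace_mul_cycle]
      ring
    simp_rw [e2]
    simp_rw [← Finset.sum_div]
    rw [(m_contr n (wm m n y.2 x * wm m n y.1 x) (wm m n w x)).1]
    unfold tw
    rw [wm_append, wm_append]
  have s2 : ∑ j, ∑ k, tl m n L x * ((splits i w).map fun z =>
      Matrix.trace (wm m n z.1 x * hb n j k * wm m n z.2 x * hb n j k)).sum =
      tl m n L x * ((n : ℂ) ^ 2 * ((splits i w).map fun z => tw m n z.1 x * tw m n z.2 x).sum) := by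
    simp_rw [← Finset.mul_sum]
    congr 1
    rw [list_swap, ← List.sum_map_mul_left]
    congr 1
    apply List.map_congr_left
    intro z _
    rw [(m_contr n (wm m n z.1 x) (wm m n z.2 x)).2]
    unfold tw
    field_simp
  have s3 : ∑ j, ∑ k, (n : ℂ) * (tl m n L x * Matrix.trace (wm m n w x * hb n j k)) *
      Matrix.trace (dV m n i x * hb n j k) =
      (n : ℂ) * tl m n L x * Matrix.trace (dV m n i x * wm m n w x) := by
    have e3 : ∀ j k, (n : ℂ) * (tl m n L x * Matrix.trace (wm m n w x * hb n j k)) *
        Matrix.trace (dV m n i x * hb n j k) =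
        ((n : ℂ) * tl m n L x) * (Matrix.trace (wm m n w x * hb n j k) *
          Matrix.trace (dV m n i x * hb n j k)) := by
      intro j k
      ring
    simp_rw [e3]
    simp_rw [← Finset.mul_sum]
    rw [(m_contr n (wm m n w x) (dV m n i x)).1, Matrix.trace_mul_comm]
  simp only [Finset.sum_sub_distrib, Finset.sum_add_distrib]
  rw [s1, s2, s3]
  unfold SW
  field_simp
  ring

end Pool.Agent.Helper228.GM
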