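import Pool.Agent.Helper228.GM.Defs
import Pool.Agent.Helper228.GM.P_m_model
import Pool.Agent.Helper228.GM.P_g_Lp

/-!
Definitions for the quartic one-matrix model `P(A) = A^4/4 - A^2` (MP_58f2bb_an).
-/

open MeasureTheory Filter Topology

namespace Pool.Agent.Helper228.GM
open Pool.Agent.Helper228.MM


theorem gb_pow3 (a b c : ℝ) (ha : 0 ≤ a) (hb : 0 ≤ b) (hc : 0 ≤ c) (p : ℕ) :
    (a + b + c) ^ p ≤ 3 ^ p * (a ^ p + b ^ p + c ^ p) := by
  have hap := pow_nonneg ha p
  have hbp := pow_nonneg hb p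
  have hcp := pow_nonneg hc p
  obtain ⟨M, hM0, haM, hbM, hcM, hMp⟩ : ∃ M : ℝ, 0 ≤ M ∧ a ≤ M ∧ b ≤ M ∧ c ≤ M ∧
      M ^ p ≤ a ^ p + b ^ p + c ^ p := by
    rcases le_total a b with hab | hab
    · rcases le_total b c with hbc | hbc
      · exact ⟨c, hc, hab.trans hbc, hbc, le_rfl, by linarith⟩
      · exact ⟨b, hb, hab, le_rfl, hbc, by linarith⟩
    · rcases le_total a c with hac | hac
      · exact ⟨c, hc, hac, hab.trans hac, le_rfl, by linarith⟩
      · exact ⟨a, ha, le_rfl, hab, hac, by linarith⟩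
  calc (a + b + c) ^ p ≤ (3 * M) ^ p := pow_le_pow_left₀ (by linarith) (by linarith) p
    _ = 3 ^ p * M ^ p := mul_pow _ _ _
    _ ≤ _ := mul_le_mul_of_nonneg_left hMp (by positivity)

theorem gb_pt (X x Y y : ℝ) (p : ℕ) :
    |X * Y - x * y| ^ p ≤ 3 ^ p * ((|X - x| ^ (2 * p) + |Y - y| ^ (2 * p)) / 2 +
      |x| ^ p * |Y - y| ^ p + |y| ^ p * |X - x| ^ p) := by
  have h1 : |X * Y - x * y| ≤ |X - x| * |Y - y| + |x| * |Y - y| + |y| * |X - x| := by
    have e : X * Y - x * y = (X - x) * (Y - y) + x * (Y - y) + y * (X - x) := by ring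
    rw [e, ← abs_mul, ← abs_mul, ← abs_mul]
    exact (abs_add_le _ _).trans (add_le_add (abs_add_le _ _) le_rfl)
  have h2 := pow_le_pow_left₀ (abs_nonneg _) h1 p
  have h3 := gb_pow3 (|X - x| * |Y - y|) (|x| * |Y - y|) (|y| * |X - x|) (by positivity)
    (by positivity) (by positivity) p
  have h4 : (|X - x| * |Y - y|) ^ p ≤ (|X - x| ^ (2 * p) + |Y - y| ^ (2 * p)) / 2 := by
    rw [mul_pow, mul_comm 2 p, pow_mul, pow_mul]
    nlinarith [sq_nonneg (|X - x| ^ p - |Y - y| ^ p)]
  rw [mul_pow |x|, mul_pow |y|] at h3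
  calc |X * Y - x * y| ^ p ≤ _ := h2.trans h3
    _ ≤ _ := by
        apply mul_le_mul_of_nonneg_left _ (by positivity)
        linarith

structure Gd (X : ∀ n : ℕ, (Fin n → Fin n → ℝ) → ℝ) (x : ℝ) : Prop where
  cont : ∀ n, Continuous (X n)
  int : ∀ n, 1 ≤ n → ∀ p, 1 ≤ p → Integrable (fun y => |X n y - x| ^ p) (model n)
  lim : ∀ p, 1 ≤ p → Tendsto (fun n => ∫ y, |X n y - x| ^ p ∂(model n)) atTop (𝓝 0)

theorem Gd_one : Gd (fun _ _ => 1) 1 := by
  have h0 : ∀ p, 1 ≤ p → |(1 : ℝ) - 1| ^ p = 0 := by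
    intro p hp
    rw [sub_self, abs_zero, zero_pow (by omega)]
  refine ⟨fun n => continuous_const, ?_, ?_⟩
  · intro n _ p hp
    simp only [h0 p hp]
    exact integrable_zero _ _ _
  · intro p hp
    simp only [h0 p hp, integral_zero]
    exact tendsto_const_nhds

theorem Gd_mul {X Y : ∀ n : ℕ, (Fin n → Fin n → ℝ) → ℝ} {x y : ℝ} (hX : Gd X x) (hY : Gd Y y) :
    Gd (fun n z => X n z * Y n z) (x * y) := by
  have hdom : ∀ n, 1 ≤ n → ∀ p, 1 ≤ p → Integrable (fun z => 3 ^ p *
      ((|X n z - x| ^ (2 * p) + |Y n z - y| ^ (2 * p)) / 2 +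
      |x| ^ p * |Y n z - y| ^ p + |y| ^ p * |X n z - x| ^ p)) (model n) := by
    intro n hn p hp
    exact ((((hX.int n hn (2 * p) (by omega)).add (hY.int n hn (2 * p) (by omega))).div_const 2).add
      ((hY.int n hn p hp).const_mul _) |>.add ((hX.int n hn p hp).const_mul _)).const_mul _
  refine ⟨fun n => (hX.cont n).mul (hY.cont n), ?_, ?_⟩
  · intro n hn p hp
    refine Integrable.mono' (hdom n hn p hp) ?_ (Filter.Eventually.of_forall ?_)
    · exact ((((hX.cont n).mul (hY.cont n)).sub continuous_const).abs.pow p).aestronglyMeasurable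
    · intro z
      rw [Real.norm_of_nonneg (by positivity)]
      exact gb_pt _ _ _ _ p
  · intro p hp
    have hlim : Tendsto (fun n : ℕ => 3 ^ p *
        (((∫ z, |X n z - x| ^ (2 * p) ∂(model n)) + (∫ z, |Y n z - y| ^ (2 * p) ∂(model n))) / 2 +
        |x| ^ p * (∫ z, |Y n z - y| ^ p ∂(model n)) +
        |y| ^ p * (∫ z, |X n z - x| ^ p ∂(model n)))) atTop (𝓝 (3 ^ p * ((0 + 0) / 2 +
        |x| ^ p * 0 + |y| ^ p * 0))) := by
      exact (((((hX.lim (2 * p) (by omega)).add (hY.lim (2 * p) (by omega))).div_const 2).add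
        ((hY.lim p hp).const_mul _)).add ((hX.lim p hp).const_mul _)).const_mul _
    have h0 : (3 : ℝ) ^ p * ((0 + 0) / 2 + |x| ^ p * 0 + |y| ^ p * 0) = 0 := by ring
    rw [h0] at hlim
    refine squeeze_zero' (Filter.Eventually.of_forall ?_) ?_ hlim
    · intro n
      exact integral_nonneg (fun z => by positivity)
    · filter_upwards [eventually_ge_atTop 1] with n hn
      have i1 := hX.int n hn (2 * p) (by omega)
      have i2 := hY.int n hn (2 * p) (by omega)
      have i3 := (hY.int n hn p hp).const_mul (|x| ^ p)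
      have i4 := (hX.int n hn p hp).const_mul (|y| ^ p)
      calc ∫ z, |X n z * Y n z - x * y| ^ p ∂(model n)
          ≤ ∫ z, 3 ^ p * ((|X n z - x| ^ (2 * p) + |Y n z - y| ^ (2 * p)) / 2 +
            |x| ^ p * |Y n z - y| ^ p + |y| ^ p * |X n z - x| ^ p) ∂(model n) := by
            apply integral_mono_of_nonneg (Filter.Eventually.of_forall (fun z => by
              show (0 : ℝ) ≤ |X n z * Y n z - x * y| ^ p
              positivity)) (hdom n hn p hp)
            exact Filter.Eventually.of_forall (fun z => gb_pt _ _ _ _ p)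
        _ = _ := by
            rw [integral_const_mul]
            congr 1
            rw [integral_add (by exact ((i1.add i2).div_const 2).add i3) i4,
              integral_add (by exact (i1.add i2).div_const 2) i3, integral_div,
              integral_add i1 i2, integral_const_mul, integral_const_mul]

theorem Gd_tk (k : ℕ) : Gd (fun n => tk n k) (MM.mom k) := by
  obtain ⟨_, _, h3, h4, h5, _⟩ := m_model
  refine ⟨fun n => h4 n k, ?_, fun p hp => g_Lp k p hp⟩
  intro n hn p _
  obtain ⟨C, hC, hb⟩ := h5 n k hn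
  apply h3 n hn _ (((h4 n k).sub continuous_const).abs.pow p) ((C + |MM.mom k|) ^ p) (k * p)
  intro x
  have hq : (1 : ℝ) ≤ 1 + qf n x := by
    have : 0 ≤ qf n x := by
      unfold qf
      exact Finset.sum_nonneg (fun j _ => Finset.sum_nonneg (fun k _ => sq_nonneg _))
    linarith
  have hq1 : (1 : ℝ) ≤ (1 + qf n x) ^ k := one_le_pow₀ hq
  have h6 : |tk n k x - MM.mom k| ≤ (C + |MM.mom k|) * (1 + qf n x) ^ k := by
    calc |tk n k x - MM.mom k| ≤ |tk n k x| + |MM.mom k| := abs_sub _ _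
      _ ≤ C * (1 + qf n x) ^ k + |MM.mom k| * (1 + qf n x) ^ k := by
          apply add_le_add (hb x)
          exact le_mul_of_one_le_right (abs_nonneg _) hq1
      _ = _ := by ring
  rw [abs_of_nonneg (pow_nonneg (abs_nonneg _) p)]
  calc |tk n k x - MM.mom k| ^ p ≤ ((C + |MM.mom k|) * (1 + qf n x) ^ k) ^ p :=
        pow_le_pow_left₀ (abs_nonneg _) h6 p
    _ = _ := by rw [mul_pow, ← pow_mul]

theorem Gd_prod (ks : List ℕ) :
    Gd (fun n y => (ks.map fun k => tk n k y).prod) ((ks.map MM.mom).prod) := by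
  induction ks with
  | nil => exact Gd_one
  | cons k ks ih => exact Gd_mul (Gd_tk k) ih

theorem g_base (ks : List ℕ) :
    Tendsto (fun n : ℕ => ∫ y, (ks.map fun k => tk n k y).prod ∂(model n)) atTop
      (𝓝 (ks.map MM.mom).prod) := by
  have hG := Gd_prod ks
  obtain ⟨m, hm⟩ : ∃ m : ℝ, m = (ks.map MM.mom).prod := ⟨_, rfl⟩
  obtain ⟨X, hX⟩ : ∃ X : ∀ n : ℕ, (Fin n → Fin n → ℝ) → ℝ,
      X = fun n y => (ks.map fun k => tk n k y).prod := ⟨_, rfl⟩
  rw [← hX, ← hm] at hG
  rw [← hm]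
  have hgoal : (fun n : ℕ => ∫ y, (ks.map fun k => tk n k y).prod ∂(model n)) =
      fun n => ∫ y, X n y ∂(model n) := by rw [hX]
  rw [hgoal]
  have hl := hG.lim 1 le_rfl
  rw [tendsto_iff_norm_sub_tendsto_zero]
  refine squeeze_zero' (Filter.Eventually.of_forall (fun n => norm_nonneg _)) ?_ hl
  filter_upwards [eventually_ge_atTop 1] with n hn
  haveI := m_model.1 n hn
  have hi : Integrable (fun y => |X n y - m| ^ 1) (model n) := hG.int n hn 1 le_rfl
  have hi1 : Integrable (fun y => X n y - m) (model n) := by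
    refine Integrable.mono' hi ((hG.cont n).sub continuous_const).aestronglyMeasurable
      (Filter.Eventually.of_forall (fun y => ?_))
    rw [pow_one, Real.norm_eq_abs]
  have hi2 : Integrable (fun y => X n y) (model n) := by
    have h1 := hi1.add (integrable_const m)
    refine h1.congr (Filter.Eventually.of_forall (fun y => ?_))
    show (X n y - m) + m = X n y
    ring
  have e1 : (∫ y, X n y ∂(model n)) - m = ∫ y, (X n y - m) ∂(model n) := by
    rw [integral_sub hi2 (integrable_const m), integral_const]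
    simp
  rw [e1]
  refine (norm_integral_le_integral_norm _).trans (le_of_eq ?_)
  refine integral_congr_ae (Filter.Eventually.of_forall (fun y => ?_))
  show ‖X n y - m‖ = |X n y - m| ^ 1
  rw [pow_one, Real.norm_eq_abs]

end Pool.Agent.Helper228.GM
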