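import Pool.Agent.Helper228.GM.Defs
import Pool.Agent.Helper228.MM.All

open MeasureTheory Filter Topology

namespace Pool.Agent.Helper228.GM
open Pool.Agent.Helper228.MM

theorem m_herm (n : ℕ) :
    (∀ x y, herm n (x + y) = herm n x + herm n y) ∧
    (∀ (c : ℝ) x, herm n (c • x) = (c : ℂ) • herm n x) ∧
    (∀ x, (herm n x).IsHermitian) ∧
    (∀ x, Matrix.trace (herm n x ^ 2) = ((qf n x : ℝ) : ℂ)) ∧
    Continuous (herm n) ∧ Continuous (energy n) ∧
    (∀ x i j, ‖(herm n x) i j‖ ≤ (n : ℝ) * (1 + qf n x)) ∧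
    (∀ x, Real.exp (energy n x) ≤ Real.exp (4 * (n : ℝ) ^ 2) * Real.exp (-(n : ℝ) * qf n x)) ∧
    (∀ x k, (Matrix.trace (herm n x ^ k)).im = 0) := by
  obtain ⟨h1, h2, h3, h4, h5, h6⟩ := herm_lin n
  refine ⟨h1, h2, h3, h6, (energy_cont n).1, (energy_cont n).2.1, ?_, weight_bound n, ?_⟩
  · intro x i j
    have := entry_bound n 1 x i j
    simpa using this
  · intro x k
    exact (trace_re n x 0 k).2

end Pool.Agent.Helper228.GM
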