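import Pool.Agent.Helper228.GM.Defs
import Pool.Agent.Helper228.GM.P_m_herm

/-!
Definitions for the quartic one-matrix model `P(A) = A^4/4 - A^2` (MP_58f2bb_an).
-/

open MeasureTheory Filter Topology

namespace Pool.Agent.Helper228.GM
open Pool.Agent.Helper228.MM


open scoped ComplexOrder in
theorem trace_nonneg_aux {n : ℕ} (B : Matrix (Fin n) (Fin n) ℂ) :
    0 ≤ (Matrix.trace (B.conjTranspose * B)).re := by
  have h2 : 0 ≤ Matrix.trace (B.conjTranspose * B) :=
    (Matrix.posSemidef_conjTranspose_mul_self B).trace_nonneg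
  exact (Complex.le_def.1 h2).1

theorem wm_append_aux (m n : ℕ) (u v : Word m) (x : Conf m n) :
    wm m n (u ++ v) x = wm m n u x * wm m n v x := by
  simp [wm, List.map_append, List.prod_append]

theorem wm_cons_aux (m n : ℕ) (a : Fin (m + 1)) (v : Word m) (x : Conf m n) :
    wm m n (a :: v) x = herm n (x a) * wm m n v x := by
  simp [wm]

theorem wm_reverse_aux (m n : ℕ) (w : Word m) (x : Conf m n) :
    wm m n w.reverse x = (wm m n w x).conjTranspose := by
  induction w with
  | nil => simp [wm]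
  | cons a w ih =>
    rw [List.reverse_cons, wm_append_aux, ih, wm_cons_aux m n a w, Matrix.conjTranspose_mul,
      ((m_herm n).2.2.1 (x a)).eq]
    simp [wm]

theorem g_basic (m n : ℕ) (hn : 1 ≤ n) (x : Conf m n) :
    tw m n [] x = 1 ∧
    (∀ u v : Word m, tw m n (u ++ v) x = tw m n (v ++ u) x) ∧
    (∀ w : Word m, tw m n w.reverse x = (starRingEnd ℂ) (tw m n w x)) ∧
    (∀ k : ℕ, tw m n (List.replicate k 0) x = ((tk n k (x 0) : ℝ) : ℂ)) ∧
    (∀ (s : Finset (Word m)) (c : Word m → ℂ),
      0 ≤ (∑ u ∈ s, ∑ v ∈ s, (starRingEnd ℂ) (c u) * c v * tw m n (u.reverse ++ v) x).re) ∧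
    (∀ (i : Fin (m + 1)) (w : Word m), i ≠ 0 →
      Matrix.trace (dV m n i x * wm m n w x) / n = 2 * tw m n (i :: w) x) ∧
    (∀ w : Word m, Matrix.trace (dV m n 0 x * wm m n w x) / n
      = tw m n (0 :: 0 :: 0 :: w) x - 2 * tw m n (0 :: w) x) := by
  have hn0 : (n : ℂ) ≠ 0 := by
    have : n ≠ 0 := by omega
    exact_mod_cast this
  refine ⟨?_, ?_, ?_, ?_, ?_, ?_, ?_⟩
  · simp [tw, wm, hn0]
  · intro u v
    rw [tw, tw, wm_append_aux, wm_append_aux, Matrix.trace_mul_comm]
  · intro w
    rw [tw, tw, wm_reverse_aux, Matrix.trace_conjTranspose, map_div₀]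
    simp
  · intro k
    have h1 : wm m n (List.replicate k 0) x = herm n (x 0) ^ k := by
      simp [wm, List.map_replicate, List.prod_replicate]
    have h2 := (m_herm n).2.2.2.2.2.2.2.2 (x 0) k
    rw [tw, h1, tk]
    have h3 : Matrix.trace (herm n (x 0) ^ k) = (((Matrix.trace (herm n (x 0) ^ k)).re : ℝ) : ℂ) := by
      apply Complex.ext
      · simp
      · simpa using h2
    rw [h3]
    push_cast
    simp
  · intro s c
    set B : Matrix (Fin n) (Fin n) ℂ := ∑ v ∈ s, c v • wm m n v x with hB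
    have h1 : (∑ u ∈ s, ∑ v ∈ s, (starRingEnd ℂ) (c u) * c v * tw m n (u.reverse ++ v) x) =
        Matrix.trace (B.conjTranspose * B) / n := by
      rw [hB, Matrix.conjTranspose_sum, Finset.sum_mul, Matrix.trace_sum, Finset.sum_div]
      refine Finset.sum_congr rfl (fun u _ => ?_)
      rw [Finset.mul_sum, Matrix.trace_sum, Finset.sum_div]
      refine Finset.sum_congr rfl (fun v _ => ?_)
      rw [Matrix.conjTranspose_smul, ← wm_reverse_aux, Matrix.smul_mul, Matrix.mul_smul,
        ← wm_append_aux, Matrix.trace_smul, Matrix.trace_smul, tw]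
      simp only [smul_eq_mul, starRingEnd_apply]
      ring
    rw [h1]
    have h3 : 0 ≤ (Matrix.trace (B.conjTranspose * B)).re := trace_nonneg_aux B
    have h4 : (Matrix.trace (B.conjTranspose * B) / (n : ℂ)).re =
        (Matrix.trace (B.conjTranspose * B)).re / n := by
      simp
    rw [h4]
    positivity
  · intro i w hi
    rw [tw, wm_cons_aux, dV, if_neg hi, Matrix.smul_mul, Matrix.trace_smul, smul_eq_mul]
    ring
  · intro w
    rw [tw, tw, wm_cons_aux, wm_cons_aux, wm_cons_aux, dV, if_pos rfl, Matrix.sub_mul,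
      Matrix.trace_sub, Matrix.smul_mul, Matrix.trace_smul, smul_eq_mul]
    have : herm n (x 0) ^ 3 * wm m n w x =
        herm n (x 0) * (herm n (x 0) * (herm n (x 0) * wm m n w x)) := by
      rw [pow_succ, pow_two]
      simp only [Matrix.mul_assoc]
    rw [this]
    ring

end Pool.Agent.Helper228.GM
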