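import Pool.Agent.Helper228.GM.Defs
import Pool.Agent.Helper228.GM.P_m_herm

/-!
Definitions for the quartic one-matrix model `P(A) = A^4/4 - A^2` (MP_58f2bb_an).
-/

open MeasureTheory Filter Topology

namespace Pool.Agent.Helper228.GM
open Pool.Agent.Helper228.MM


theorem g_cont (m n : ℕ) : (∀ w : Word m, Continuous (wm m n w)) ∧
    (∀ w : Word m, Continuous (tw m n w)) ∧ Continuous (energyM m n) ∧
    (∀ i, Continuous (dV m n i)) ∧ Continuous (qfM m n) := by
  have hA : ∀ i, Continuous fun x : Conf m n => herm n (x i) := fun i =>
    (m_herm n).2.2.2.2.1.comp (continuous_apply i)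
  have hw : ∀ w : Word m, Continuous (wm m n w) := by
    intro w
    induction w with
    | nil =>
      have h : wm m n [] = fun _ => 1 := by
        funext x
        simp [wm]
      rw [h]
      exact continuous_const
    | cons a w ih =>
      have h : wm m n (a :: w) = fun x => herm n (x a) * wm m n w x := by
        funext x
        simp [wm]
      rw [h]
      exact (hA a).matrix_mul ih
  refine ⟨hw, ?_, ?_, ?_, ?_⟩
  · intro w
    exact (hw w).matrix_trace.div_const _
  · have h1 : Continuous fun x : Conf m n => Matrix.trace ((1 / 4 : ℂ) • herm n (x 0) ^ 4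
        - herm n (x 0) ^ 2 + ∑ i : Fin m, herm n (x i.succ) ^ 2) := by
      refine Continuous.matrix_trace ?_
      refine Continuous.add (Continuous.sub ?_ ?_) ?_
      · exact ((hA 0).pow 4).const_smul (1 / 4 : ℂ)
      · exact (hA 0).pow 2
      · exact continuous_finsetSum _ fun i _ => (hA i.succ).pow 2
    exact continuous_const.mul (Complex.continuous_re.comp h1)
  · intro i
    by_cases hi : i = 0
    · have h : dV m n i = fun x => herm n (x 0) ^ 3 - (2 : ℂ) • herm n (x 0) := by
        funext x
        simp [dV, hi]
      rw [h]
      exact ((hA 0).pow 3).sub ((hA 0).const_smul (2 : ℂ))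
    · have h : dV m n i = fun x => (2 : ℂ) • herm n (x i) := by
        funext x
        simp [dV, hi]
      rw [h]
      exact (hA i).const_smul (2 : ℂ)
  · have h : qfM m n = fun x => ∑ i, ∑ j, ∑ k, x i j k ^ 2 := by
      funext x
      rfl
    rw [h]
    refine continuous_finsetSum _ fun i _ => continuous_finsetSum _ fun j _ =>
      continuous_finsetSum _ fun k _ => ?_
    exact ((continuous_apply k).comp ((continuous_apply j).comp (continuous_apply i))).pow 2

end Pool.Agent.Helper228.GM

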