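import Pool.Agent.Helper228.GM.Defs
import Pool.Agent.Helper228.GM.P_m_herm

/-!
Definitions for the quartic one-matrix model `P(A) = A^4/4 - A^2` (MP_58f2bb_an).
-/

open MeasureTheory Filter Topology

namespace Pool.Agent.Helper228.GM
open Pool.Agent.Helper228.MM


theorem g_deriv_letter (m n : ℕ) (i : Fin (m + 1)) (j k : Fin n) (a : Fin (m + 1)) (x : Conf m n)
    (t : ℝ) : herm n ((x + t • dir m n i j k) a) =
      herm n (x a) + (t : ℂ) • (if a = i then hb n j k else 0) := by
  have e : (x + t • dir m n i j k) a = x a + t • (dir m n i j k a) := rfl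
  rw [e, (m_herm n).1, (m_herm n).2.1]
  congr 2
  by_cases h : a = i
  · subst h
    rw [if_pos rfl]
    unfold dir hb
    rw [Pi.single_eq_same]
  · rw [if_neg h]
    unfold dir
    rw [Pi.single_eq_of_ne h]
    have h0 := (m_herm n).2.1 0 0
    rw [zero_smul] at h0
    rw [h0]
    simp

theorem g_deriv_gen (m n : ℕ) (i : Fin (m + 1)) (j k : Fin n) (w : Word m) (x : Conf m n)
    (X : Matrix (Fin n) (Fin n) ℂ) : ∀ Y : Matrix (Fin n) (Fin n) ℂ,
    HasDerivAt (fun t : ℝ => Matrix.trace (Y * wm m n w (x + t • dir m n i j k) * X))
      (((splits i w).map fun z =>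
        Matrix.trace (Y * wm m n z.1 x * hb n j k * wm m n z.2 x * X)).sum) 0 := by
  induction w with
  | nil =>
    intro Y
    have h1 : (fun t : ℝ => Matrix.trace (Y * wm m n [] (x + t • dir m n i j k) * X))
        = fun _ => Matrix.trace (Y * 1 * X) := by
      funext t
      simp [wm]
    rw [h1]
    exact hasDerivAt_const (0 : ℝ) (Matrix.trace (Y * 1 * X))
  | cons a w ih =>
    intro Y
    have h1 := ih (Y * herm n (x a))
    have h2 := ih (Y * (if a = i then hb n j k else 0))
    have h3 : HasDerivAt (fun t : ℝ => (t : ℂ) *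
        Matrix.trace (Y * (if a = i then hb n j k else 0) * wm m n w (x + t • dir m n i j k) * X))
        (Matrix.trace (Y * (if a = i then hb n j k else 0) * wm m n w x * X)) 0 := by
      have h4 : HasDerivAt (fun t : ℝ => (t : ℂ)) 1 0 := Complex.ofRealCLM.hasDerivAt
      refine (h4.fun_mul h2).congr_deriv ?_
      rw [Complex.ofReal_zero, zero_mul, add_zero, one_mul, zero_smul, add_zero]
    have h6 := h1.add h3
    have e1 : (fun t : ℝ => Matrix.trace (Y * wm m n (a :: w) (x + t • dir m n i j k) * X))
        = fun t : ℝ => Matrix.trace (Y * herm n (x a) * wm m n w (x + t • dir m n i j k) * X)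
          + (t : ℂ) * Matrix.trace (Y * (if a = i then hb n j k else 0) *
            wm m n w (x + t • dir m n i j k) * X) := by
      funext t
      have e2 : wm m n (a :: w) (x + t • dir m n i j k)
          = herm n ((x + t • dir m n i j k) a) * wm m n w (x + t • dir m n i j k) := by
        simp [wm]
      rw [e2, g_deriv_letter, add_mul, mul_add, add_mul, Matrix.trace_add, smul_mul_assoc,
        mul_smul_comm, smul_mul_assoc, Matrix.trace_smul, smul_eq_mul, ← mul_assoc, ← mul_assoc]
    have e3 : ((splits i (a :: w)).map fun z =>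
        Matrix.trace (Y * wm m n z.1 x * hb n j k * wm m n z.2 x * X)).sum
        = ((splits i w).map fun z =>
        Matrix.trace (Y * herm n (x a) * wm m n z.1 x * hb n j k * wm m n z.2 x * X)).sum
        + Matrix.trace (Y * (if a = i then hb n j k else 0) * wm m n w x * X) := by
      have e4 : ∀ z : Word m × Word m, wm m n (a :: z.1) x = herm n (x a) * wm m n z.1 x := by
        intro z
        simp [wm]
      rw [splits, List.map_append, List.sum_append, List.map_map, add_comm]
      refine congrArg₂ (· + ·) ?_ ?_
      · refine congrArg List.sum (List.map_congr_left ?_)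
        intro z _
        show Matrix.trace (Y * wm m n (a :: z.1) x * hb n j k * wm m n z.2 x * X) = _
        rw [e4 z, ← mul_assoc Y]
      · by_cases h : a = i
        · rw [if_pos h, if_pos h, List.map_cons, List.map_nil, List.sum_cons, List.sum_nil,
            add_zero]
          show Matrix.trace (Y * wm m n [] x * hb n j k * wm m n w x * X) = _
          have e5 : wm m n [] x = 1 := by simp [wm]
          rw [e5, mul_one]
        · rw [if_neg h, if_neg h, List.map_nil, List.sum_nil]
          simp
    rw [e1, e3]
    exact h6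

theorem g_deriv (m n : ℕ) (i : Fin (m + 1)) (j k : Fin n) (w : Word m) (x : Conf m n)
    (X : Matrix (Fin n) (Fin n) ℂ) :
    HasDerivAt (fun t : ℝ => Matrix.trace (wm m n w (x + t • dir m n i j k) * X))
      (((splits i w).map fun z =>
        Matrix.trace (wm m n z.1 x * hb n j k * wm m n z.2 x * X)).sum) 0 := by
  simpa using g_deriv_gen m n i j k w x X 1

end Pool.Agent.Helper228.GM
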