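import Pool.Agent.Helper228.GM.Defs
import Pool.Agent.Helper228.GM.P_m_herm
import Pool.Agent.Helper228.GM.P_g_deriv

/-!
Definitions for the quartic one-matrix model `P(A) = A^4/4 - A^2` (MP_58f2bb_an).
-/

open MeasureTheory Filter Topology

namespace Pool.Agent.Helper228.GM
open Pool.Agent.Helper228.MM


theorem ge_trace_im (n : ℕ) (M H : Matrix (Fin n) (Fin n) ℂ) (hM : M.IsHermitian)
    (hH : H.IsHermitian) : (Matrix.trace (M * H)).im = 0 := by
  have h1 : star (Matrix.trace (M * H)) = Matrix.trace (M * H) := by
    rw [← Matrix.trace_conjTranspose, Matrix.conjTranspose_mul, hM.eq, hH.eq, Matrix.trace_mul_comm]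
  have h2 := congrArg Complex.im h1
  simp only [Complex.star_def, Complex.conj_im] at h2
  linarith

theorem ge_d4 (m n : ℕ) (i a : Fin (m + 1)) (j k : Fin n) (x : Conf m n) :
    HasDerivAt (fun t : ℝ => Matrix.trace (herm n ((x + t • dir m n i j k) a) ^ 4))
      (if a = i then 4 * Matrix.trace (herm n (x a) ^ 3 * hb n j k) else 0) 0 := by
  have h := g_deriv m n i j k [a, a, a, a] x 1
  have e1 : ∀ t : ℝ, Matrix.trace (wm m n [a, a, a, a] (x + t • dir m n i j k) * 1) =
      Matrix.trace (herm n ((x + t • dir m n i j k) a) ^ 4) := by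
    intro t
    simp [wm, pow_succ, mul_assoc]
  simp_rw [e1] at h
  convert h using 1
  by_cases hai : a = i
  · subst hai
    simp only [splits, if_true, wm]
    simp only [List.map_nil, List.map_cons, List.prod_nil, List.prod_cons, List.append_nil,
      List.sum_cons, List.sum_nil, mul_one, one_mul, add_zero,
      List.nil_append, List.cons_append]
    set A := herm n (x a)
    set H := hb n j k
    have c1 : Matrix.trace (H * (A * (A * A))) = Matrix.trace (A ^ 3 * H) := by
      rw [Matrix.trace_mul_comm]; congr 1; noncomm_ring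
    have c2 : Matrix.trace (A * H * (A * A)) = Matrix.trace (A ^ 3 * H) := by
      rw [Matrix.trace_mul_comm]; congr 1; noncomm_ring
    have c3 : Matrix.trace (A * A * H * A) = Matrix.trace (A ^ 3 * H) := by
      rw [Matrix.trace_mul_comm]; congr 1; noncomm_ring
    have c4 : Matrix.trace (A * (A * A) * H) = Matrix.trace (A ^ 3 * H) := by
      congr 1; noncomm_ring
    rw [c1, c2, c3, c4]
    ring
  · simp [splits, hai]

theorem ge_d2 (m n : ℕ) (i a : Fin (m + 1)) (j k : Fin n) (x : Conf m n) :
    HasDerivAt (fun t : ℝ => Matrix.trace (herm n ((x + t • dir m n i j k) a) ^ 2))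
      (if a = i then 2 * Matrix.trace (herm n (x a) * hb n j k) else 0) 0 := by
  have h := g_deriv m n i j k [a, a] x 1
  have e1 : ∀ t : ℝ, Matrix.trace (wm m n [a, a] (x + t • dir m n i j k) * 1) =
      Matrix.trace (herm n ((x + t • dir m n i j k) a) ^ 2) := by
    intro t
    simp [wm, pow_succ]
  simp_rw [e1] at h
  convert h using 1
  by_cases hai : a = i
  · subst hai
    simp only [splits, if_true, wm]
    simp only [List.map_nil, List.map_cons, List.prod_nil, List.prod_cons, List.append_nil,
      List.sum_cons, List.sum_nil, mul_one, one_mul, add_zero,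
      List.nil_append, List.cons_append]
    set A := herm n (x a)
    set H := hb n j k
    have c1 : Matrix.trace (H * A) = Matrix.trace (A * H) := Matrix.trace_mul_comm _ _
    rw [c1]
    ring
  · simp [splits, hai]

theorem ge_val (m n : ℕ) (i : Fin (m + 1)) (j k : Fin n) (x : Conf m n) :
    (((1 / 4 : ℂ) * if (0 : Fin (m + 1)) = i then
        4 * Matrix.trace (herm n (x 0) ^ 3 * hb n j k) else 0) -
      if (0 : Fin (m + 1)) = i then 2 * Matrix.trace (herm n (x 0) * hb n j k) else 0) +
      ∑ s : Fin m, (if s.succ = i then 2 * Matrix.trace (herm n (x s.succ) * hb n j k) else 0) =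
    Matrix.trace (dV m n i x * hb n j k) := by
  rcases Fin.eq_zero_or_eq_succ i with hi | ⟨s, hi⟩
  · subst hi
    rw [if_pos rfl, if_pos rfl, Finset.sum_eq_zero (fun s _ => if_neg (Fin.succ_ne_zero s))]
    unfold dV
    rw [if_pos rfl, sub_mul, Matrix.trace_sub, Matrix.smul_mul, Matrix.trace_smul, smul_eq_mul]
    ring
  · subst hi
    rw [if_neg (Fin.succ_ne_zero s).symm, if_neg (Fin.succ_ne_zero s).symm,
      Finset.sum_eq_single s]
    · rw [if_pos rfl]
      unfold dV
      rw [if_neg (Fin.succ_ne_zero s), Matrix.smul_mul, Matrix.trace_smul, smul_eq_mul]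
      ring
    · intro b _ hb
      exact if_neg (fun h => hb (Fin.succ_injective _ h))
    · intro h
      exact absurd (Finset.mem_univ _) h

theorem g_energy_deriv (m n : ℕ) (i : Fin (m + 1)) (j k : Fin n) (x : Conf m n) :
    HasDerivAt (fun t : ℝ => energyM m n (x + t • dir m n i j k))
      (-(n : ℝ) * (Matrix.trace (dV m n i x * hb n j k)).re) 0 ∧
    (Matrix.trace (dV m n i x * hb n j k)).im = 0 := by
  constructor
  · have h1 : HasDerivAt (fun t : ℝ =>
        (1 / 4 : ℂ) * Matrix.trace (herm n ((x + t • dir m n i j k) 0) ^ 4) -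
          Matrix.trace (herm n ((x + t • dir m n i j k) 0) ^ 2) +
          ∑ s : Fin m, Matrix.trace (herm n ((x + t • dir m n i j k) s.succ) ^ 2))
        (Matrix.trace (dV m n i x * hb n j k)) 0 := by
      rw [← ge_val]
      exact (((ge_d4 m n i 0 j k x).const_mul (1 / 4 : ℂ)).sub (ge_d2 m n i 0 j k x)).add
        (HasDerivAt.fun_sum (u := Finset.univ) fun s _ => ge_d2 m n i (s : Fin m).succ j k x)
    have h3 : HasDerivAt (fun t : ℝ => -(n : ℝ) * Complex.reCLM (
        (1 / 4 : ℂ) * Matrix.trace (herm n ((x + t • dir m n i j k) 0) ^ 4) -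
          Matrix.trace (herm n ((x + t • dir m n i j k) 0) ^ 2) +
          ∑ s : Fin m, Matrix.trace (herm n ((x + t • dir m n i j k) s.succ) ^ 2)))
        (-(n : ℝ) * Complex.reCLM (Matrix.trace (dV m n i x * hb n j k))) 0 :=
      (Complex.reCLM.hasFDerivAt.comp_hasDerivAt (0 : ℝ) h1).const_mul (-(n : ℝ))
    have h4 : (fun t : ℝ => energyM m n (x + t • dir m n i j k)) = (fun t : ℝ =>
        -(n : ℝ) * Complex.reCLM (
        (1 / 4 : ℂ) * Matrix.trace (herm n ((x + t • dir m n i j k) 0) ^ 4) -
          Matrix.trace (herm n ((x + t • dir m n i j k) 0) ^ 2) +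
          ∑ s : Fin m, Matrix.trace (herm n ((x + t • dir m n i j k) s.succ) ^ 2))) := by
      funext t
      unfold energyM
      rw [Matrix.trace_add, Matrix.trace_sub, Matrix.trace_smul, Matrix.trace_sum, smul_eq_mul]
      rfl
    rw [h4]
    exact h3
  · apply ge_trace_im
    · unfold dV
      have hA := (m_herm n).2.2.1
      split_ifs
      · apply Matrix.IsHermitian.sub
        · exact (hA _).pow 3
        · have := hA (x 0)
          unfold Matrix.IsHermitian at this ⊢
          rw [Matrix.conjTranspose_smul, this]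
          simp
      · have := hA (x i)
        unfold Matrix.IsHermitian at this ⊢
        rw [Matrix.conjTranspose_smul, this]
        simp
    · exact (m_herm n).2.2.1 _

end Pool.Agent.Helper228.GM
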