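import Pool.Agent.Helper228.GM.Defs
import Pool.Agent.Helper228.GM.P_m_herm

/-!
Definitions for the quartic one-matrix model `P(A) = A^4/4 - A^2` (MP_58f2bb_an).
-/

open MeasureTheory Filter Topology

namespace Pool.Agent.Helper228.GM
open Pool.Agent.Helper228.MM


theorem g_energy_eq (m n : ℕ) (x : Conf m n) :
    energyM m n x = energy n (x 0) - (n : ℝ) * ∑ i : Fin m, qf n (x i.succ) := by
  obtain ⟨_, _, _, htr, _⟩ := m_herm n
  have h1 : (Matrix.trace ((1 / 4 : ℂ) • herm n (x 0) ^ 4 - herm n (x 0) ^ 2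
      + ∑ i : Fin m, herm n (x i.succ) ^ 2)).re =
      (Matrix.trace ((1 / 4 : ℂ) • herm n (x 0) ^ 4 - herm n (x 0) ^ 2)).re +
        ∑ i : Fin m, qf n (x i.succ) := by
    rw [Matrix.trace_add, Complex.add_re, Matrix.trace_sum, Complex.re_sum]
    congr 1
    refine Finset.sum_congr rfl fun i _ => ?_
    rw [htr, Complex.ofReal_re]
  unfold energyM energy
  rw [h1]
  ring

end Pool.Agent.Helper228.GM
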