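import Pool.Agent.Helper228.GM.Defs
import Pool.Agent.Helper228.GM.P_m_herm
import Pool.Agent.Helper228.GM.P_g_energy_eq

/-!
Definitions for the quartic one-matrix model `P(A) = A^4/4 - A^2` (MP_58f2bb_an).
-/

open MeasureTheory Filter Topology

namespace Pool.Agent.Helper228.GM
open Pool.Agent.Helper228.MM


theorem g_weight (m n : ℕ) (x : Conf m n) :
    Real.exp (energyM m n x) ≤ Real.exp (4 * (n : ℝ) ^ 2) * Real.exp (-(n : ℝ) * qfM m n x) := by
  have h := (m_herm n).2.2.2.2.2.2.2.1 (x 0)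
  rw [← Real.exp_add] at h
  have h1 := Real.exp_le_exp.1 h
  rw [← Real.exp_add]
  refine Real.exp_le_exp.2 ?_
  rw [g_energy_eq]
  have h2 : qfM m n x = qf n (x 0) + ∑ i : Fin m, qf n (x i.succ) := by
    unfold qfM
    exact Fin.sum_univ_succ _
  rw [h2]
  nlinarith [h1]

end Pool.Agent.Helper228.GM
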