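import Pool.Agent.Helper228.GM.Defs
import Pool.Agent.Helper228.GM.P_g_weight
import Pool.Agent.Helper228.GM.P_g_cont

/-!
Definitions for the quartic one-matrix model `P(A) = A^4/4 - A^2` (MP_58f2bb_an).
-/

open MeasureTheory Filter Topology

namespace Pool.Agent.Helper228.GM
open Pool.Agent.Helper228.MM


theorem x975_gauss (m n : ℕ) : Integrable (fun x : Conf m n => Real.exp (-(1 / 2 : ℝ) * qfM m n x)) := by
  have h1 : Integrable (fun t : ℝ => Real.exp (-(1 / 2 : ℝ) * t ^ 2)) :=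
    integrable_exp_neg_mul_sq (by norm_num)
  have h2 : Integrable (fun x : Fin n → ℝ => ∏ k, Real.exp (-(1 / 2 : ℝ) * x k ^ 2))
      (Measure.pi fun _ => (volume : Measure ℝ)) :=
    Integrable.fintype_prod (f := fun (_ : Fin n) (t : ℝ) => Real.exp (-(1 / 2 : ℝ) * t ^ 2))
      (fun _ => h1)
  rw [← volume_pi] at h2
  have h3 : Integrable (fun x : Fin n → Fin n → ℝ => ∏ j, ∏ k, Real.exp (-(1 / 2 : ℝ) * x j k ^ 2))
      (Measure.pi fun _ => (volume : Measure (Fin n → ℝ))) :=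
    Integrable.fintype_prod (f := fun (_ : Fin n) (t : Fin n → ℝ) =>
      ∏ k, Real.exp (-(1 / 2 : ℝ) * t k ^ 2)) (fun _ => h2)
  rw [← volume_pi] at h3
  have h4 : Integrable (fun x : Conf m n => ∏ i, ∏ j, ∏ k, Real.exp (-(1 / 2 : ℝ) * x i j k ^ 2))
      (Measure.pi fun _ => (volume : Measure (Fin n → Fin n → ℝ))) :=
    Integrable.fintype_prod (f := fun (_ : Fin (m + 1)) (t : Fin n → Fin n → ℝ) =>
      ∏ j, ∏ k, Real.exp (-(1 / 2 : ℝ) * t j k ^ 2)) (fun _ => h3)
  rw [← volume_pi] at h4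
  refine h4.congr (Filter.Eventually.of_forall fun x => ?_)
  simp only [← Real.exp_sum, qfM, qf, Finset.mul_sum]

theorem x975_qnn (m n : ℕ) (x : Conf m n) : 0 ≤ qfM m n x := by
  unfold qfM qf
  positivity

theorem x975_poly (N : ℕ) (q : ℝ) (hq : 0 ≤ q) :
    (1 + q) ^ N ≤ 2 ^ N * (N.factorial : ℝ) * Real.exp (1 / 2) * Real.exp (q / 2) := by
  have h1 := Real.pow_div_factorial_le_exp ((1 + q) / 2) (by positivity) N
  have hf : (0:ℝ) < (N.factorial : ℝ) := by exact_mod_cast Nat.factorial_pos N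
  rw [div_le_iff₀ hf, div_pow, div_le_iff₀ (by positivity)] at h1
  have h2 : Real.exp ((1 + q) / 2) = Real.exp (1 / 2) * Real.exp (q / 2) := by
    rw [← Real.exp_add]; congr 1; ring
  rw [h2] at h1
  calc (1 + q) ^ N ≤ _ := h1
    _ = _ := by ring

theorem g_integrable (m n : ℕ) (hn : 1 ≤ n) (g : Conf m n → ℂ) (hg : PB m n g) :
    Integrable (fun x => g x * ((Real.exp (energyM m n x) : ℝ) : ℂ)) := by
  obtain ⟨hgc, C, N, hC, hb⟩ := hg
  obtain ⟨_, _, hE, _, _⟩ := g_cont m n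
  have hcont : Continuous (fun x => g x * ((Real.exp (energyM m n x) : ℝ) : ℂ)) :=
    hgc.mul (Complex.continuous_ofReal.comp (Real.continuous_exp.comp hE))
  refine Integrable.mono' ((x975_gauss m n).const_mul
    (C * (2 ^ N * (N.factorial : ℝ) * Real.exp (1 / 2)) * Real.exp (4 * (n : ℝ) ^ 2)))
    hcont.aestronglyMeasurable (Filter.Eventually.of_forall fun x => ?_)
  have hq := x975_qnn m n x
  rw [norm_mul, Complex.norm_real, Real.norm_eq_abs, abs_of_pos (Real.exp_pos _)]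
  have hn' : (1:ℝ) ≤ n := by exact_mod_cast hn
  have h1 : ‖g x‖ ≤ C * (2 ^ N * (N.factorial : ℝ) * Real.exp (1 / 2) * Real.exp (qfM m n x / 2)) :=
    (hb x).trans (mul_le_mul_of_nonneg_left (x975_poly N _ hq) hC)
  have h2 : Real.exp (energyM m n x) ≤ Real.exp (4 * (n : ℝ) ^ 2) * Real.exp (-qfM m n x) := by
    refine (g_weight m n x).trans (mul_le_mul_of_nonneg_left (Real.exp_le_exp.mpr ?_)
      (Real.exp_pos _).le)
    nlinarith
  calc ‖g x‖ * Real.exp (energyM m n x) ≤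
      (C * (2 ^ N * (N.factorial : ℝ) * Real.exp (1 / 2) * Real.exp (qfM m n x / 2))) *
        (Real.exp (4 * (n : ℝ) ^ 2) * Real.exp (-qfM m n x)) :=
        mul_le_mul h1 h2 (Real.exp_pos _).le (by positivity)
    _ = C * (2 ^ N * (N.factorial : ℝ) * Real.exp (1 / 2)) * Real.exp (4 * (n : ℝ) ^ 2) *
        (Real.exp (qfM m n x / 2) * Real.exp (-qfM m n x)) := by ring
    _ = _ := by
        rw [← Real.exp_add]
        congr 2
        ring

end Pool.Agent.Helper228.GM
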