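import Pool.Agent.Helper228.GM.Defs
import Pool.Agent.Helper228.GM.P_g_cont

/-!
Definitions for the quartic one-matrix model `P(A) = A^4/4 - A^2` (MP_58f2bb_an).
-/

open MeasureTheory Filter Topology

namespace Pool.Agent.Helper228.GM
open Pool.Agent.Helper228.MM


theorem pb_aux_q (m n : ℕ) (x : Conf m n) : 0 ≤ qfM m n x := by
  unfold qfM qf
  positivity

theorem pb_aux_const (m n : ℕ) (c : ℂ) : PB m n fun _ => c := by
  refine ⟨continuous_const, ‖c‖, 0, norm_nonneg _, fun x => ?_⟩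
  simp

theorem pb_aux_add (m n : ℕ) (f g : Conf m n → ℂ) (hf : PB m n f) (hg : PB m n g) :
    PB m n fun x => f x + g x := by
  obtain ⟨hf1, C, N, hC, hf2⟩ := hf
  obtain ⟨hg1, D, M, hD, hg2⟩ := hg
  refine ⟨hf1.add hg1, C + D, N + M, by positivity, fun x => ?_⟩
  have hq := pb_aux_q m n x
  have h1 : (1:ℝ) ≤ 1 + qfM m n x := by linarith
  have h2 : (1 + qfM m n x) ^ N ≤ (1 + qfM m n x) ^ (N + M) :=
    pow_le_pow_right₀ h1 (Nat.le_add_right _ _)
  have h3 : (1 + qfM m n x) ^ M ≤ (1 + qfM m n x) ^ (N + M) :=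
    pow_le_pow_right₀ h1 (Nat.le_add_left _ _)
  calc ‖f x + g x‖ ≤ ‖f x‖ + ‖g x‖ := norm_add_le _ _
    _ ≤ C * (1 + qfM m n x) ^ N + D * (1 + qfM m n x) ^ M := add_le_add (hf2 x) (hg2 x)
    _ ≤ C * (1 + qfM m n x) ^ (N + M) + D * (1 + qfM m n x) ^ (N + M) := by gcongr
    _ = (C + D) * (1 + qfM m n x) ^ (N + M) := by ring

theorem pb_aux_mul (m n : ℕ) (f g : Conf m n → ℂ) (hf : PB m n f) (hg : PB m n g) :
    PB m n fun x => f x * g x := by
  obtain ⟨hf1, C, N, hC, hf2⟩ := hf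
  obtain ⟨hg1, D, M, hD, hg2⟩ := hg
  refine ⟨hf1.mul hg1, C * D, N + M, by positivity, fun x => ?_⟩
  have hq := pb_aux_q m n x
  calc ‖f x * g x‖ = ‖f x‖ * ‖g x‖ := norm_mul _ _
    _ ≤ (C * (1 + qfM m n x) ^ N) * (D * (1 + qfM m n x) ^ M) :=
      mul_le_mul (hf2 x) (hg2 x) (norm_nonneg _) (by positivity)
    _ = (C * D) * (1 + qfM m n x) ^ (N + M) := by rw [pow_add]; ring

theorem pb_aux_list (m n : ℕ) {α : Type} (l : List α) (f : α → Conf m n → ℂ)
    (h : ∀ a ∈ l, PB m n (f a)) : PB m n fun x => (l.map fun a => f a x).sum := by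
  induction l with
  | nil => simpa using pb_aux_const m n 0
  | cons a l ih =>
    simp only [List.map_cons, List.sum_cons]
    exact pb_aux_add m n _ _ (h a List.mem_cons_self)
      (ih fun b hb => h b (List.mem_cons_of_mem _ hb))

theorem pb_aux_finset (m n : ℕ) {α : Type} (s : Finset α) (f : α → Conf m n → ℂ)
    (h : ∀ a ∈ s, PB m n (f a)) : PB m n fun x => ∑ a ∈ s, f a x := by
  classical
  induction s using Finset.induction_on with
  | empty => simpa using pb_aux_const m n 0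
  | insert a s ha ih =>
    simp only [Finset.sum_insert ha]
    exact pb_aux_add m n _ _ (h a (Finset.mem_insert_self _ _))
      (ih fun b hb => h b (Finset.mem_insert_of_mem hb))

theorem pb_ops (m n : ℕ) : (∀ c : ℂ, PB m n fun _ => c) ∧
    (∀ f g, PB m n f → PB m n g → PB m n fun x => f x + g x) ∧
    (∀ f g, PB m n f → PB m n g → PB m n fun x => f x - g x) ∧
    (∀ f g, PB m n f → PB m n g → PB m n fun x => f x * g x) ∧
    (∀ f (c : ℂ), PB m n f → PB m n fun x => f x / c) ∧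
    (∀ {α : Type} (l : List α) (f : α → Conf m n → ℂ), (∀ a ∈ l, PB m n (f a)) →
      PB m n fun x => (l.map fun a => f a x).sum) ∧
    (∀ {α : Type} (s : Finset α) (f : α → Conf m n → ℂ), (∀ a ∈ s, PB m n (f a)) →
      PB m n fun x => ∑ a ∈ s, f a x) := by
  refine ⟨pb_aux_const m n, pb_aux_add m n, ?_, pb_aux_mul m n, ?_, ?_, ?_⟩
  · intro f g hf hg
    have h1 := pb_aux_add m n f _ hf (pb_aux_mul m n _ g (pb_aux_const m n (-1)) hg)
    have h2 : (fun x => f x - g x) = fun x => f x + -1 * g x := by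
      funext x; ring
    rw [h2]; exact h1
  · intro f c hf
    have h1 := pb_aux_mul m n f _ hf (pb_aux_const m n c⁻¹)
    have h2 : (fun x => f x / c) = fun x => f x * c⁻¹ := by
      funext x; rw [div_eq_mul_inv]
    rw [h2]; exact h1
  · intro α l f h
    exact pb_aux_list m n l f h
  · intro α s f h
    exact pb_aux_finset m n s f h

end Pool.Agent.Helper228.GM
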