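import Pool.Agent.Helper228.GM.Defs
import Pool.Agent.Helper228.GM.P_m_herm

/-!
Definitions for the quartic one-matrix model `P(A) = A^4/4 - A^2` (MP_58f2bb_an).
-/

open MeasureTheory Filter Topology

namespace Pool.Agent.Helper228.GM
open Pool.Agent.Helper228.MM


theorem g_entry (m n : ℕ) (w : Word m) (x : Conf m n) (i j : Fin n) :
    ‖(wm m n w x) i j‖ ≤ ((n : ℝ) ^ 2 * (1 + qfM m n x)) ^ w.length := by
  obtain ⟨-, -, -, -, -, -, hent, -, -⟩ := m_herm n
  have hq0 : ∀ y : Fin n → Fin n → ℝ, 0 ≤ qf n y := fun y =>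
    Finset.sum_nonneg fun a _ => Finset.sum_nonneg fun b _ => sq_nonneg _
  have hqM : ∀ a, qf n (x a) ≤ qfM m n x := fun a =>
    Finset.single_le_sum (f := fun a => qf n (x a)) (fun b _ => hq0 (x b)) (Finset.mem_univ a)
  have hM0 : 0 ≤ qfM m n x := Finset.sum_nonneg fun a _ => hq0 (x a)
  induction w generalizing i with
  | nil =>
    simp only [wm, List.map_nil, List.prod_nil, List.length_nil, pow_zero]
    rw [Matrix.one_apply]
    split_ifs <;> simp
  | cons a w ih =>
    have e : wm m n (a :: w) x = herm n (x a) * wm m n w x := by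
      simp [wm]
    rw [e, Matrix.mul_apply, List.length_cons, pow_succ]
    set B := ((n : ℝ) ^ 2 * (1 + qfM m n x)) ^ w.length with hB
    have hB0 : 0 ≤ B := by positivity
    calc ‖∑ k, herm n (x a) i k * wm m n w x k j‖
        ≤ ∑ k, ‖herm n (x a) i k * wm m n w x k j‖ := norm_sum_le _ _
      _ ≤ ∑ _k : Fin n, ((n : ℝ) * (1 + qfM m n x)) * B := by
          apply Finset.sum_le_sum
          intro k _
          rw [norm_mul]
          have h1 : ‖herm n (x a) i k‖ ≤ (n : ℝ) * (1 + qfM m n x) :=
            (hent (x a) i k).trans (mul_le_mul_of_nonneg_left (by linarith [hqM a])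
              (Nat.cast_nonneg n))
          exact mul_le_mul h1 (ih k) (norm_nonneg _) (by positivity)
      _ = B * ((n : ℝ) ^ 2 * (1 + qfM m n x)) := by
          rw [Finset.sum_const, Finset.card_univ, Fintype.card_fin, nsmul_eq_mul]
          ring

end Pool.Agent.Helper228.GM
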