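import Pool.Agent.Helper228.GM.Defs
import Pool.Agent.Helper228.GM.P_g_entry
import Pool.Agent.Helper228.GM.P_g_cont
import Pool.Agent.Helper228.GM.P_pb_ops

/-!
Definitions for the quartic one-matrix model `P(A) = A^4/4 - A^2` (MP_58f2bb_an).
-/

open MeasureTheory Filter Topology

namespace Pool.Agent.Helper228.GM
open Pool.Agent.Helper228.MM


/-- matrix valued version of `PB` -/
def PBMat (m n : ℕ) (M : Conf m n → Matrix (Fin n) (Fin n) ℂ) : Prop :=
  ∀ i j, PB m n fun x => M x i j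

theorem pbm_const (m n : ℕ) (X : Matrix (Fin n) (Fin n) ℂ) : PBMat m n fun _ => X :=
  fun i j => (pb_ops m n).1 (X i j)

theorem pbm_sub (m n : ℕ) (M M' : Conf m n → Matrix (Fin n) (Fin n) ℂ) (h : PBMat m n M)
    (h' : PBMat m n M') : PBMat m n fun x => M x - M' x :=
  fun i j => (pb_ops m n).2.2.1 _ _ (h i j) (h' i j)

theorem pbm_smul (m n : ℕ) (c : ℂ) (M : Conf m n → Matrix (Fin n) (Fin n) ℂ) (h : PBMat m n M) :
    PBMat m n fun x => c • M x :=
  fun i j => (pb_ops m n).2.2.2.1 _ _ ((pb_ops m n).1 c) (h i j)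

theorem pbm_mul (m n : ℕ) (M M' : Conf m n → Matrix (Fin n) (Fin n) ℂ) (h : PBMat m n M)
    (h' : PBMat m n M') : PBMat m n fun x => M x * M' x := by
  intro i j
  have := (pb_ops m n).2.2.2.2.2.2 Finset.univ (fun (k : Fin n) x => M x i k * M' x k j)
    (fun k _ => (pb_ops m n).2.2.2.1 _ _ (h i k) (h' k j))
  simpa only [Matrix.mul_apply] using this

theorem pbm_trace (m n : ℕ) (M : Conf m n → Matrix (Fin n) (Fin n) ℂ) (h : PBMat m n M) :
    PB m n fun x => Matrix.trace (M x) := by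
  have := (pb_ops m n).2.2.2.2.2.2 Finset.univ (fun (k : Fin n) x => M x k k)
    (fun k _ => h k k)
  simpa only [Matrix.trace, Matrix.diag] using this

theorem pbm_wm (m n : ℕ) (w : Word m) : PBMat m n (wm m n w) := by
  intro i j
  refine ⟨((g_cont m n).1 w).matrix_elem i j, ((n : ℝ) ^ 2) ^ w.length, w.length, by positivity,
    fun x => ?_⟩
  rw [← mul_pow]
  exact g_entry m n w x i j

theorem pbm_dV (m n : ℕ) (i : Fin (m + 1)) : PBMat m n (dV m n i) := by
  by_cases hi : i = 0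
  · have e : dV m n i = fun x => wm m n [0, 0, 0] x - (2 : ℂ) • wm m n [0] x := by
      funext x
      simp [dV, hi, wm, pow_succ, mul_assoc]
    rw [e]
    exact pbm_sub m n _ _ (pbm_wm m n _) (pbm_smul m n 2 _ (pbm_wm m n _))
  · have e : dV m n i = fun x => (2 : ℂ) • wm m n [i] x := by
      funext x
      simp [dV, hi, wm]
    rw [e]
    exact pbm_smul m n 2 _ (pbm_wm m n _)

theorem pb_trace (m n : ℕ) :
    (∀ (w : Word m) (i j : Fin n), PB m n fun x => (wm m n w x) i j) ∧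
    (∀ (w : Word m) (X : Matrix (Fin n) (Fin n) ℂ),
      PB m n fun x => Matrix.trace (wm m n w x * X)) ∧
    (∀ w : Word m, PB m n (tw m n w)) ∧
    (∀ (u v : Word m) (X Y : Matrix (Fin n) (Fin n) ℂ),
      PB m n fun x => Matrix.trace (wm m n u x * X * wm m n v x * Y)) ∧
    (∀ (i : Fin (m + 1)) (X : Matrix (Fin n) (Fin n) ℂ),
      PB m n fun x => Matrix.trace (dV m n i x * X)) ∧
    (∀ (i : Fin (m + 1)) (w : Word m), PB m n fun x => Matrix.trace (dV m n i x * wm m n w x)) := by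
  refine ⟨fun w => pbm_wm m n w, fun w X => ?_, fun w => ?_, fun u v X Y => ?_, fun i X => ?_,
    fun i w => ?_⟩
  · exact pbm_trace m n _ (pbm_mul m n _ _ (pbm_wm m n w) (pbm_const m n X))
  · exact (pb_ops m n).2.2.2.2.1 _ _ (pbm_trace m n _ (pbm_wm m n w))
  · exact pbm_trace m n _ (pbm_mul m n _ _ (pbm_mul m n _ _ (pbm_mul m n _ _ (pbm_wm m n u)
      (pbm_const m n X)) (pbm_wm m n v)) (pbm_const m n Y))
  · exact pbm_trace m n _ (pbm_mul m n _ _ (pbm_dV m n i) (pbm_const m n X))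
  · exact pbm_trace m n _ (pbm_mul m n _ _ (pbm_dV m n i) (pbm_wm m n w))

end Pool.Agent.Helper228.GM
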