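import Pool.Agent.Helper228.GM.Defs
import Pool.Agent.Helper228.GM.P_g_cont
import Pool.Agent.Helper228.GM.P_g_integrable
import Pool.Agent.Helper228.GM.P_pb_ops
import Pool.Agent.Helper228.GM.P_pb_trace
import Pool.Agent.Helper228.GM.P_g_energy_deriv

/-!
Definitions for the quartic one-matrix model `P(A) = A^4/4 - A^2` (MP_58f2bb_an).
-/

open MeasureTheory Filter Topology

namespace Pool.Agent.Helper228.GM
open Pool.Agent.Helper228.MM


theorem g_ibp_haar1 (n : ℕ) : (volume : Measure (Fin n → Fin n → ℝ)).IsAddHaarMeasure := by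
  have h := @Measure.pi.isAddHaarMeasure (Fin n) (fun _ => Fin n → ℝ) _ _
    (fun _ => (volume : Measure (Fin n → ℝ))) (fun _ => inferInstance) _ _
    (fun _ => inferInstance) (fun _ => inferInstance)
  exact h

theorem g_ibp_haar (m n : ℕ) : (volume : Measure (Conf m n)).IsAddHaarMeasure := by
  have h1 := g_ibp_haar1 n
  have h := @Measure.pi.isAddHaarMeasure (Fin (m+1)) (fun _ => Fin n → Fin n → ℝ) _ _
    (fun _ => (volume : Measure (Fin n → Fin n → ℝ))) (fun _ => inferInstance) _ _
    (fun _ => inferInstance) (fun _ => inferInstance)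
  exact h

theorem g_ibp (m n : ℕ) (hn : 1 ≤ n) (i : Fin (m + 1)) (j k : Fin n)
    (F F' : Conf m n → ℂ) (hF : PB m n F) (hF' : PB m n F')
    (hd : ∀ x, HasDerivAt (fun t : ℝ => F (x + t • dir m n i j k)) (F' x) 0) :
    ∫ x, (F' x - (n : ℂ) * F x * Matrix.trace (dV m n i x * hb n j k)) *
      ((Real.exp (energyM m n x) : ℝ) : ℂ) = 0 := by
  obtain ⟨hconst, hadd, hsub, hmul, hdiv, hlsum, hfsum⟩ := pb_ops m n
  have hPt := (pb_trace m n).2.2.2.2.1 i (hb n j k)
  have hPB : PB m n (fun x => F' x - (n : ℂ) * F x * Matrix.trace (dV m n i x * hb n j k)) :=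
    hsub _ _ hF' (hmul _ _ (hmul _ _ (hconst (n : ℂ)) hF) hPt)
  have hI1 := g_integrable m n hn _ hPB
  have hI2 := g_integrable m n hn _ hF
  have hder : ∀ x, HasLineDerivAt ℝ (fun x => F x * ((Real.exp (energyM m n x) : ℝ) : ℂ))
      ((F' x - (n : ℂ) * F x * Matrix.trace (dV m n i x * hb n j k)) *
        ((Real.exp (energyM m n x) : ℝ) : ℂ)) x (dir m n i j k) := by
    intro x
    have hx0 : x + (0 : ℝ) • dir m n i j k = x := by rw [zero_smul, add_zero]
    obtain ⟨h1, h2⟩ := g_energy_deriv m n i j k x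
    have h3 := h1.exp.ofReal_comp
    have h4 := (hd x).mul h3
    have h5 : (Matrix.trace (dV m n i x * hb n j k)) =
        (((Matrix.trace (dV m n i x * hb n j k)).re : ℝ) : ℂ) := by
      apply Complex.ext
      · simp
      · simpa using h2
    rw [hx0] at h4
    unfold HasLineDerivAt
    refine h4.congr_deriv ?_
    rw [h5]
    push_cast
    simp only [Complex.ofReal_re]
    ring
  have hhaar := g_ibp_haar m n
  have key := integral_bilinear_hasLineDerivAt_right_eq_neg_left_of_integrable
    (μ := (volume : Measure (Conf m n))) (E := Conf m n)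
    (f := fun _ : Conf m n => (1 : ℝ)) (f' := fun _ => (0 : ℝ))
    (g := fun x => F x * ((Real.exp (energyM m n x) : ℝ) : ℂ))
    (g' := fun x => (F' x - (n : ℂ) * F x * Matrix.trace (dV m n i x * hb n j k)) *
        ((Real.exp (energyM m n x) : ℝ) : ℂ))
    (v := dir m n i j k) (B := ContinuousLinearMap.lsmul ℝ ℝ)
    (by simp) (by simpa using hI1) (by simpa using hI2)
    (fun x _ => by
      unfold HasLineDerivAt
      exact hasDerivAt_const _ _)
    (fun x _ => hder x)
  simpa using key

end Pool.Agent.Helper228.GM
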