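import Pool.Agent.Helper228.GM.Defs
import Pool.Agent.Helper228.GM.P_g_deriv

/-!
Definitions for the quartic one-matrix model `P(A) = A^4/4 - A^2` (MP_58f2bb_an).
-/

open MeasureTheory Filter Topology

namespace Pool.Agent.Helper228.GM
open Pool.Agent.Helper228.MM


theorem twDerivAux (m n : ℕ) (w : Word m) (i : Fin (m + 1)) (j k : Fin n) (x : Conf m n) :
    HasDerivAt (fun t : ℝ => tw m n w (x + t • dir m n i j k))
      (((splits i w).map fun y =>
        Matrix.trace (wm m n y.1 x * hb n j k * wm m n y.2 x) / n).sum) 0 := by
  have h := (g_deriv m n i j k w x 1).div_const (n : ℂ)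
  simp only [mul_one] at h
  have e : ((splits i w).map fun y =>
        Matrix.trace (wm m n y.1 x * hb n j k * wm m n y.2 x) / (n : ℂ)).sum
      = ((splits i w).map fun z =>
        Matrix.trace (wm m n z.1 x * hb n j k * wm m n z.2 x)).sum / (n : ℂ) := by
    simp only [div_eq_mul_inv]
    rw [List.sum_map_mul_right]
  rw [e]
  exact h

theorem g_list_deriv (m n : ℕ) (L : List (Word m)) (i : Fin (m + 1)) (j k : Fin n)
    (x : Conf m n) :
    HasDerivAt (fun t : ℝ => tl m n L (x + t • dir m n i j k)) (dtl m n L i j k x) 0 := by
  induction L with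
  | nil =>
    simp only [tl, dtl, picks, List.map_nil, List.prod_nil, List.sum_nil]
    exact hasDerivAt_const _ _
  | cons w L ih =>
    have h1 := twDerivAux m n w i j k x
    have h2 := h1.mul ih
    have e1 : (fun t : ℝ => tl m n (w :: L) (x + t • dir m n i j k))
        = (fun t : ℝ => tw m n w (x + t • dir m n i j k)) *
          (fun t : ℝ => tl m n L (x + t • dir m n i j k)) := by
      funext t
      simp [tl]
    rw [e1]
    refine h2.congr_deriv ?_
    simp only [zero_smul, add_zero]
    unfold dtl
    simp only [picks, List.map_cons, List.sum_cons, List.map_map]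
    congr 1
    rw [← List.sum_map_mul_left]
    congr 1
    apply List.map_congr_left
    intro z hz
    simp only [Function.comp, tl, List.map_cons, List.prod_cons]
    ring

end Pool.Agent.Helper228.GM
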