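import Pool.Agent.Helper228.GM.Defs
import Pool.Agent.Helper228.GM.P_pb_ops
import Pool.Agent.Helper228.GM.P_pb_trace

/-!
Definitions for the quartic one-matrix model `P(A) = A^4/4 - A^2` (MP_58f2bb_an).
-/

open MeasureTheory Filter Topology

namespace Pool.Agent.Helper228.GM
open Pool.Agent.Helper228.MM


theorem pb_all (m n : ℕ) :
    (∀ L : List (Word m), PB m n (tl m n L)) ∧
    (∀ (L : List (Word m)) i j k, PB m n (dtl m n L i j k)) ∧
    (∀ i (w : Word m), PB m n (SW m n i w)) ∧
    (∀ (L : List (Word m)) i w, PB m n (con m n L i w)) := by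
  obtain ⟨hc, hadd, hsub, hmul, hdiv, hlist, -⟩ := pb_ops m n
  obtain ⟨-, -, htw, htr, -, hdV⟩ := pb_trace m n
  have htl : ∀ L : List (Word m), PB m n (tl m n L) := by
    intro L
    induction L with
    | nil =>
      have h1 : tl m n ([] : List (Word m)) = fun _ => (1 : ℂ) := by
        funext x
        simp [tl]
      rw [h1]
      exact hc 1
    | cons w L ih =>
      have h1 : tl m n (w :: L) = fun x => tw m n w x * tl m n L x := by
        funext x
        simp [tl]
      rw [h1]
      exact hmul _ _ (htw w) ih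
  refine ⟨htl, ?_, ?_, ?_⟩
  · intro L i j k
    unfold dtl
    refine hlist (picks L) (fun z x => ((splits i z.1).map fun y =>
      Matrix.trace (wm m n y.1 x * hb n j k * wm m n y.2 x) / n).sum * tl m n z.2 x) ?_
    intro z _
    refine hmul _ _ ?_ (htl z.2)
    refine hlist (splits i z.1) (fun y x =>
      Matrix.trace (wm m n y.1 x * hb n j k * wm m n y.2 x) / n) ?_
    intro y _
    refine hdiv _ _ ?_
    have := htr y.1 y.2 (hb n j k) 1
    simpa only [mul_one] using this
  · intro i w
    unfold SW
    refine hsub _ _ ?_ (hdiv _ _ (hdV i w))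
    exact hlist (splits i w) (fun z x => tw m n z.1 x * tw m n z.2 x)
      fun z _ => hmul _ _ (htw _) (htw _)
  · intro L i w
    unfold con
    refine hlist (picks L) (fun z x => ((splits i z.1).map fun y =>
      tw m n (y.2 ++ y.1 ++ w) x).sum * tl m n z.2 x) ?_
    intro z _
    refine hmul _ _ ?_ (htl z.2)
    exact hlist (splits i z.1) (fun y x => tw m n (y.2 ++ y.1 ++ w) x) fun y _ => htw _

end Pool.Agent.Helper228.GM
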