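import Pool.Agent.Helper228.GM.Defs
import Pool.Agent.Helper228.GM.P_g_integrable
import Pool.Agent.Helper228.GM.P_pb_ops
import Pool.Agent.Helper228.GM.P_pb_trace
import Pool.Agent.Helper228.GM.P_pb_all
import Pool.Agent.Helper228.GM.P_g_deriv
import Pool.Agent.Helper228.GM.P_g_list_deriv
import Pool.Agent.Helper228.GM.P_g_ibp
import Pool.Agent.Helper228.GM.P_g_alg

/-!
Definitions for the quartic one-matrix model `P(A) = A^4/4 - A^2` (MP_58f2bb_an).
-/

open MeasureTheory Filter Topology

namespace Pool.Agent.Helper228.GM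
open Pool.Agent.Helper228.MM


theorem g_loop (m n : ℕ) (hn : 1 ≤ n) (L : List (Word m)) (i : Fin (m + 1)) (w : Word m) :
    ∫ x, (tl m n L x * SW m n i w x) * ((Real.exp (energyM m n x) : ℝ) : ℂ)
      = -(1 / (n : ℂ) ^ 2) *
        ∫ x, con m n L i w x * ((Real.exp (energyM m n x) : ℝ) : ℂ) := by
  obtain ⟨pc, padd, psub, pmul, pdiv, plsum, psum⟩ := pb_ops m n
  obtain ⟨pt1, pt2, pt3, pt4, pt5, pt6⟩ := pb_trace m n
  obtain ⟨pa1, pa2, pa3, pa4⟩ := pb_all m n
  set E : Conf m n → ℂ := fun x => ((Real.exp (energyM m n x) : ℝ) : ℂ) with hE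
  let F : Fin n → Fin n → Conf m n → ℂ := fun j k x =>
    tl m n L x * Matrix.trace (wm m n w x * hb n j k)
  let F' : Fin n → Fin n → Conf m n → ℂ := fun j k x =>
    dtl m n L i j k x * Matrix.trace (wm m n w x * hb n j k)
        + tl m n L x * ((splits i w).map fun z =>
          Matrix.trace (wm m n z.1 x * hb n j k * wm m n z.2 x * hb n j k)).sum
  have hPBF : ∀ j k, PB m n (F j k) := fun j k => pmul _ _ (pa1 L) (pt2 w _)
  have hPBF' : ∀ j k, PB m n (F' j k) := fun j k =>
    padd _ _ (pmul _ _ (pa2 L i j k) (pt2 w _))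
      (pmul _ _ (pa1 L) (plsum (splits i w)
        (fun z x => Matrix.trace (wm m n z.1 x * hb n j k * wm m n z.2 x * hb n j k))
        (fun z _ => pt4 z.1 z.2 _ _)))
  have hd : ∀ j k, ∀ x, HasDerivAt (fun t : ℝ => F j k (x + t • dir m n i j k)) (F' j k x) 0 := by
    intro j k x
    have h1 := g_list_deriv m n L i j k x
    have h2 := g_deriv m n i j k w x (hb n j k)
    have h3 := h1.mul h2
    simp only [zero_smul, add_zero] at h3
    exact h3
  have hG : ∀ j k, PB m n (fun x => F' j k x - (n : ℂ) * F j k x *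
      Matrix.trace (dV m n i x * hb n j k)) := fun j k =>
    psub _ _ (hPBF' j k) (pmul _ _ (pmul _ _ (pc _) (hPBF j k)) (pt5 i _))
  have h0 : ∀ j k, ∫ x, (F' j k x - (n : ℂ) * F j k x *
      Matrix.trace (dV m n i x * hb n j k)) * E x = 0 := fun j k =>
    g_ibp m n hn i j k (F j k) (F' j k) (hPBF j k) (hPBF' j k) (hd j k)
  have hInt : ∀ j k, Integrable (fun x => (F' j k x - (n : ℂ) * F j k x *
      Matrix.trace (dV m n i x * hb n j k)) * E x) := fun j k =>
    g_integrable m n hn _ (hG j k)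
  have hsum : ∫ x, ∑ j, ∑ k, (F' j k x - (n : ℂ) * F j k x *
      Matrix.trace (dV m n i x * hb n j k)) * E x = 0 := by
    rw [integral_finsetSum _ (fun j _ => integrable_finsetSum _ fun k _ => hInt j k)]
    apply Finset.sum_eq_zero
    intro j _
    rw [integral_finsetSum _ (fun k _ => hInt j k)]
    apply Finset.sum_eq_zero
    intro k _
    exact h0 j k
  have hpt : ∀ x, ∑ j, ∑ k, (F' j k x - (n : ℂ) * F j k x *
      Matrix.trace (dV m n i x * hb n j k)) * E x =
      con m n L i w x * E x + (n : ℂ) ^ 2 * ((tl m n L x * SW m n i w x) * E x) := by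
    intro x
    have := g_alg m n hn L i w x
    simp_rw [← Finset.sum_mul]
    have e : (con m n L i w x * E x + (n : ℂ) ^ 2 * ((tl m n L x * SW m n i w x) * E x)) =
      (con m n L i w x + (n : ℂ) ^ 2 * (tl m n L x * SW m n i w x)) * E x := by ring
    rw [e, ← this]
  simp_rw [hpt] at hsum
  have hc : Integrable (fun x => con m n L i w x * E x) := g_integrable m n hn _ (pa4 L i w)
  have hs : Integrable (fun x => (tl m n L x * SW m n i w x) * E x) :=
    g_integrable m n hn _ (pmul _ _ (pa1 L) (pa3 i w))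
  rw [integral_add hc (hs.const_mul _), integral_const_mul] at hsum
  have hn0 : (n : ℂ) ≠ 0 := by
    have : n ≠ 0 := by omega
    exact_mod_cast this
  field_simp
  linear_combination hsum

end Pool.Agent.Helper228.GM
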