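import Pool.Agent.Helper228.GM.Defs
import Pool.Agent.Helper228.GM.P_g_weight
import Pool.Agent.Helper228.GM.P_g_cont
import Pool.Agent.Helper228.GM.P_g_integrable
import Pool.Agent.Helper228.GM.P_pb_ops

/-!
Definitions for the quartic one-matrix model `P(A) = A^4/4 - A^2` (MP_58f2bb_an).
-/

open MeasureTheory Filter Topology

namespace Pool.Agent.Helper228.GM
open Pool.Agent.Helper228.MM


theorem g_model (m n : ℕ) (hn : 1 ≤ n) : IsProbabilityMeasure (modelM m n) ∧
    Integrable (fun x => Real.exp (energyM m n x)) ∧ 0 < (∫ x, Real.exp (energyM m n x)) ∧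
    (∀ g, PB m n g → Integrable g (modelM m n)) ∧
    (∀ g : Conf m n → ℂ, ∫ x, g x ∂(modelM m n)
      = (∫ x, g x * ((Real.exp (energyM m n x) : ℝ) : ℂ))
        / ((∫ x, Real.exp (energyM m n x) : ℝ) : ℂ)) := by
  have hint : Integrable (fun x => Real.exp (energyM m n x)) := by
    have h := (g_integrable m n hn (fun _ => 1) ((pb_ops m n).1 1)).re
    refine h.congr (Filter.Eventually.of_forall fun x => ?_)
    show RCLike.re ((1 : ℂ) * ((Real.exp (energyM m n x) : ℝ) : ℂ)) = Real.exp (energyM m n x)
    rw [one_mul]
    exact Complex.ofReal_re _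
  have hneZ : NeZero (volume : Measure (Conf m n)) := by
    refine ⟨fun h => ?_⟩
    have h1 : (volume : Measure (Fin n → Fin n → ℝ)).IsOpenPosMeasure := inferInstance
    have h2 : SigmaFinite (volume : Measure (Fin n → Fin n → ℝ)) := inferInstance
    have h3 : (volume : Measure (Conf m n)).IsOpenPosMeasure :=
      Measure.pi.isOpenPosMeasure (μ := fun _ => volume)
    have h2 : 0 < (volume : Measure (Conf m n)) Set.univ :=
      isOpen_univ.measure_pos volume Set.univ_nonempty
    rw [h] at h2
    simp at h2
  refine ⟨?_, hint, integral_exp_pos hint, fun g hg => ?_, fun g => ?_⟩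
  · exact isProbabilityMeasure_tilted hint
  · rw [modelM, integrable_tilted_iff hint]
    refine (g_integrable m n hn g hg).congr (Filter.Eventually.of_forall fun x => ?_)
    show g x * ((Real.exp (energyM m n x) : ℝ) : ℂ) = Real.exp (energyM m n x) • g x
    rw [Complex.real_smul, mul_comm]
  · rw [modelM, integral_tilted, ← integral_div]
    refine integral_congr_ae (Filter.Eventually.of_forall fun x => ?_)
    show (Real.exp (energyM m n x) / ∫ x, Real.exp (energyM m n x)) • g x = _
    rw [Complex.real_smul]
    push_cast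
    ring

end Pool.Agent.Helper228.GM
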