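import Pool.Agent.Helper228.GM.Defs
import Pool.Agent.Helper228.GM.P_g_loop
import Pool.Agent.Helper228.GM.P_g_model

/-!
Definitions for the quartic one-matrix model `P(A) = A^4/4 - A^2` (MP_58f2bb_an).
-/

open MeasureTheory Filter Topology

namespace Pool.Agent.Helper228.GM
open Pool.Agent.Helper228.MM


theorem g_loop_model (m n : ℕ) (hn : 1 ≤ n) (L : List (Word m)) (i : Fin (m + 1))
    (w : Word m) :
    ∫ x, tl m n L x * SW m n i w x ∂(modelM m n)
      = -(1 / (n : ℂ) ^ 2) * ∫ x, con m n L i w x ∂(modelM m n) := by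
  obtain ⟨_, _, _, _, hg⟩ := g_model m n hn
  rw [hg (fun x => tl m n L x * SW m n i w x), hg (fun x => con m n L i w x)]
  rw [g_loop m n hn L i w]
  rw [mul_div_assoc]

end Pool.Agent.Helper228.GM
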