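import Pool.Agent.Helper228.GM.Defs
import Pool.Agent.Helper228.GM.P_pb_ops
import Pool.Agent.Helper228.GM.P_pb_trace
import Pool.Agent.Helper228.GM.P_pb_all
import Pool.Agent.Helper228.GM.P_g_model
import Pool.Agent.Helper228.GM.P_g_loop_model
import Pool.Agent.Helper228.GM.P_g_basic

/-!
Definitions for the quartic one-matrix model `P(A) = A^4/4 - A^2` (MP_58f2bb_an).
-/

open MeasureTheory Filter Topology

namespace Pool.Agent.Helper228.GM
open Pool.Agent.Helper228.MM


theorem gstep_int_list {X : Type} [MeasurableSpace X] (μ : Measure X) {α : Type} (l : List α)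
    (f : α → X → ℂ) (h : ∀ a, Integrable (f a) μ) :
    Integrable (fun x => (l.map fun a => f a x).sum) μ ∧
      ∫ x, (l.map fun a => f a x).sum ∂μ = (l.map fun a => ∫ x, f a x ∂μ).sum := by
  induction l with
  | nil => simp
  | cons a l ih =>
    simp only [List.map_cons, List.sum_cons]
    refine ⟨(h a).add ih.1, ?_⟩
    rw [integral_add (h a) ih.1, ih.2]

theorem gstep_sum_mul {α : Type} (l : List α) (f : α → ℂ) (c : ℂ) :
    (l.map f).sum * c = (l.map fun a => f a * c).sum := by
  induction l with
  | nil => simp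
  | cons a l ih => simp only [List.map_cons, List.sum_cons, add_mul, ih]

theorem g_step (m n : ℕ) (hn : 1 ≤ n) (i : Fin (m + 1)) (hi : i ≠ 0) (w : Word m)
    (L : List (Word m)) :
    2 * ∫ x, tl m n ((i :: w) :: L) x ∂(modelM m n)
      = ((splits i w).map fun z => ∫ x, tl m n (z.1 :: z.2 :: L) x ∂(modelM m n)).sum
        + (1 / (n : ℂ) ^ 2) * ((picks L).map fun z => ((splits i z.1).map fun y =>
          ∫ x, tl m n ((y.2 ++ y.1 ++ w) :: z.2) x ∂(modelM m n)).sum).sum := by
  have hint : ∀ L : List (Word m), Integrable (tl m n L) (modelM m n) := fun L =>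
    (g_model m n hn).2.2.2.1 _ ((pb_all m n).1 L)
  have htl : ∀ (a : Word m) (L : List (Word m)) (x : Conf m n),
      tl m n (a :: L) x = tw m n a x * tl m n L x := by
    intro a L x
    simp only [tl, List.map_cons, List.prod_cons]
  have h1 : ∀ x, tl m n L x * SW m n i w x =
      ((splits i w).map fun z => tl m n (z.1 :: z.2 :: L) x).sum - 2 * tl m n ((i :: w) :: L) x := by
    intro x
    have e0 : ((splits i w).map fun z => tw m n z.1 x * tw m n z.2 x).sum * tl m n L x =
        ((splits i w).map fun z => tl m n (z.1 :: z.2 :: L) x).sum := by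
      rw [gstep_sum_mul]
      refine congrArg List.sum (List.map_congr_left fun z _ => ?_)
      rw [htl, htl]
      ring
    have e1 := (g_basic m n hn x).2.2.2.2.2.1 i w hi
    unfold SW
    rw [e1, ← e0, htl (i :: w) L x]
    ring
  have h2 : ∀ x, con m n L i w x = ((picks L).map fun z => ((splits i z.1).map fun y =>
      tl m n ((y.2 ++ y.1 ++ w) :: z.2) x).sum).sum := by
    intro x
    unfold con
    refine congrArg List.sum (List.map_congr_left fun z _ => ?_)
    rw [gstep_sum_mul]
    refine congrArg List.sum (List.map_congr_left fun y _ => ?_)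
    rw [htl]
  have h6 := g_loop_model m n hn L i w
  rw [show (fun x => tl m n L x * SW m n i w x) = fun x =>
      ((splits i w).map fun z => tl m n (z.1 :: z.2 :: L) x).sum - 2 * tl m n ((i :: w) :: L) x
      from funext h1,
    show (fun x => con m n L i w x) = fun x => ((picks L).map fun z => ((splits i z.1).map fun y =>
      tl m n ((y.2 ++ y.1 ++ w) :: z.2) x).sum).sum from funext h2] at h6
  clear h1 h2
  generalize modelM m n = μ at hint h6 ⊢
  have h3 := gstep_int_list μ (splits i w) (fun z => tl m n (z.1 :: z.2 :: L))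
    (fun z => hint _)
  have h4 : ∀ z : Word m × List (Word m),
      Integrable (fun x => ((splits i z.1).map fun y =>
        tl m n ((y.2 ++ y.1 ++ w) :: z.2) x).sum) μ ∧
      ∫ x, ((splits i z.1).map fun y => tl m n ((y.2 ++ y.1 ++ w) :: z.2) x).sum ∂μ =
        ((splits i z.1).map fun y => ∫ x, tl m n ((y.2 ++ y.1 ++ w) :: z.2) x ∂μ).sum := by
    intro z
    exact gstep_int_list μ (splits i z.1)
      (fun y => tl m n ((y.2 ++ y.1 ++ w) :: z.2)) (fun y => hint _)
  have h4a : ∀ z : Word m × List (Word m),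
      Integrable (fun x => ((splits i z.1).map fun y =>
        tl m n ((y.2 ++ y.1 ++ w) :: z.2) x).sum) μ := fun z => (h4 z).1
  have h7 : ((picks L).map fun z => ∫ x, ((splits i z.1).map fun y =>
      tl m n ((y.2 ++ y.1 ++ w) :: z.2) x).sum ∂μ) =
      ((picks L).map fun z => ((splits i z.1).map fun y =>
          ∫ x, tl m n ((y.2 ++ y.1 ++ w) :: z.2) x ∂μ).sum) :=
    List.map_congr_left fun z _ => (h4 z).2
  rw [← h7]
  generalize hF : (fun (z : Word m × List (Word m)) (x : Conf m n) =>
    ((splits i z.1).map fun y => tl m n ((y.2 ++ y.1 ++ w) :: z.2) x).sum) = F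
  have hF' : ∀ z x, ((splits i z.1).map fun y => tl m n ((y.2 ++ y.1 ++ w) :: z.2) x).sum = F z x :=
    fun z x => congrFun (congrFun hF z) x
  simp only [hF'] at h4a h6 ⊢
  have h5 := gstep_int_list μ (picks L) F h4a
  rw [integral_sub h3.1 ((hint _).const_mul 2), h3.2, h5.2, integral_const_mul] at h6
  generalize ((splits i w).map fun z => ∫ x, tl m n (z.1 :: z.2 :: L) x ∂μ).sum = X1 at h6 ⊢
  generalize (∫ x, tl m n ((i :: w) :: L) x ∂μ) = X3 at h6 ⊢
  linear_combination -h6

end Pool.Agent.Helper228.GM
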