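import Pool.Agent.Helper228.GM.Defs
import Pool.Agent.Helper228.GM.P_m_herm
import Pool.Agent.Helper228.GM.P_m_model
import Pool.Agent.Helper228.GM.P_g_energy_eq
import Pool.Agent.Helper228.GM.P_g_model

/-!
Definitions for the quartic one-matrix model `P(A) = A^4/4 - A^2` (MP_58f2bb_an).
-/

open MeasureTheory Filter Topology

namespace Pool.Agent.Helper228.GM
open Pool.Agent.Helper228.MM


theorem g_marginal_tonelli (m n : ℕ) (s : Set (Fin n → Fin n → ℝ)) (hs : MeasurableSet s) :
    ∫⁻ x in (fun x : Conf m n => x 0) ⁻¹' s, ENNReal.ofReal (Real.exp (energyM m n x)) =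
      (∫⁻ y in s, ENNReal.ofReal (Real.exp (energy n y))) *
      ∫⁻ z : Fin m → Fin n → Fin n → ℝ,
        ENNReal.ofReal (Real.exp (-((n : ℝ) * ∑ i, qf n (z i)))) := by
  have hE : Continuous (energy n) := (m_herm n).2.2.2.2.2.1
  have hG : Measurable (fun y => ENNReal.ofReal (Real.exp (energy n y))) :=
    (Real.continuous_exp.comp hE).measurable.ennreal_ofReal
  have hq : Continuous (qf n) := by unfold qf; fun_prop
  have hH : Measurable (fun z : Fin m → Fin n → Fin n → ℝ =>
      ENNReal.ofReal (Real.exp (-((n : ℝ) * ∑ i, qf n (z i))))) := by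
    apply Measurable.ennreal_ofReal
    apply Continuous.measurable
    fun_prop
  have hmp := volume_preserving_piFinSuccAbove
    (fun _ : Fin (m + 1) => (Fin n → Fin n → ℝ)) 0
  have h0 : Measurable (fun x : Conf m n => x 0) := measurable_pi_apply 0
  rw [← lintegral_indicator (h0 hs), ← lintegral_indicator hs,
    ← lintegral_prod_mul (hG.indicator hs).aemeasurable hH.aemeasurable]
  have hm : Measurable (fun p : (Fin n → Fin n → ℝ) × (Fin m → Fin n → Fin n → ℝ) =>
      s.indicator (fun y => ENNReal.ofReal (Real.exp (energy n y))) p.1 *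
        ENNReal.ofReal (Real.exp (-((n : ℝ) * ∑ i, qf n (p.2 i))))) :=
    ((hG.indicator hs).comp measurable_fst).mul (hH.comp measurable_snd)
  refine Eq.trans ?_ (hmp.lintegral_comp hm)
  congr 1
  funext x
  have e1 : (MeasurableEquiv.piFinSuccAbove
      (fun _ : Fin (m + 1) => (Fin n → Fin n → ℝ)) 0 x).1 = x 0 := rfl
  have e2 : ∀ i : Fin m, (MeasurableEquiv.piFinSuccAbove
      (fun _ : Fin (m + 1) => (Fin n → Fin n → ℝ)) 0 x).2 i = x i.succ := by
    intro i
    rfl
  simp only [e1, e2]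
  by_cases hx : x 0 ∈ s
  · have hx' : x ∈ (fun x : Conf m n => x 0) ⁻¹' s := hx
    rw [Set.indicator_of_mem hx', Set.indicator_of_mem hx, g_energy_eq, sub_eq_add_neg,
      Real.exp_add, ENNReal.ofReal_mul (Real.exp_pos _).le]
  · have hx' : x ∉ (fun x : Conf m n => x 0) ⁻¹' s := hx
    rw [Set.indicator_of_notMem hx', Set.indicator_of_notMem hx, zero_mul]

theorem g_marginal (m n : ℕ) (hn : 1 ≤ n) :
    (modelM m n).map (fun x => x 0) = model n := by
  obtain ⟨hI, hZ⟩ := m_model.2.1 n hn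
  obtain ⟨_, hIM, hZM, _, _⟩ := g_model m n hn
  have h0 : Measurable (fun x : Conf m n => x 0) := measurable_pi_apply 0
  set B := ∫⁻ z : Fin m → Fin n → Fin n → ℝ,
        ENNReal.ofReal (Real.exp (-((n : ℝ) * ∑ i, qf n (z i)))) with hB
  have hA1 : ENNReal.ofReal (∫ x, Real.exp (energy n x)) =
      ∫⁻ y, ENNReal.ofReal (Real.exp (energy n y)) :=
    ofReal_integral_eq_lintegral_ofReal hI (Filter.Eventually.of_forall fun x => (Real.exp_pos _).le)
  have hA2 : ENNReal.ofReal (∫ x, Real.exp (energyM m n x)) =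
      (∫⁻ y, ENNReal.ofReal (Real.exp (energy n y))) * B := by
    rw [ofReal_integral_eq_lintegral_ofReal hIM
      (Filter.Eventually.of_forall fun x => (Real.exp_pos _).le)]
    have h1 := g_marginal_tonelli m n Set.univ MeasurableSet.univ
    rw [Set.preimage_univ, Measure.restrict_univ, Measure.restrict_univ] at h1
    exact h1
  ext s hs
  rw [Measure.map_apply h0 hs]
  unfold modelM model
  rw [tilted_apply' _ _ (h0 hs), tilted_apply' _ _ hs]
  have h1 : ∀ x, ENNReal.ofReal (Real.exp (energyM m n x) / ∫ x, Real.exp (energyM m n x)) =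
      ENNReal.ofReal (Real.exp (energyM m n x)) *
        (ENNReal.ofReal (∫ x, Real.exp (energyM m n x)))⁻¹ := by
    intro x
    rw [ENNReal.ofReal_div_of_pos hZM, div_eq_mul_inv]
  have h2 : ∀ x, ENNReal.ofReal (Real.exp (energy n x) / ∫ x, Real.exp (energy n x)) =
      ENNReal.ofReal (Real.exp (energy n x)) *
        (ENNReal.ofReal (∫ x, Real.exp (energy n x)))⁻¹ := by
    intro x
    rw [ENNReal.ofReal_div_of_pos hZ, div_eq_mul_inv]
  simp only [h1, h2]
  have hne1 : ENNReal.ofReal (∫ x, Real.exp (energyM m n x)) ≠ 0 := by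
    rw [Ne, ENNReal.ofReal_eq_zero, not_le]; exact hZM
  have hne2 : ENNReal.ofReal (∫ x, Real.exp (energy n x)) ≠ 0 := by
    rw [Ne, ENNReal.ofReal_eq_zero, not_le]; exact hZ
  rw [lintegral_mul_const' _ _ (ENNReal.inv_ne_top.mpr hne1),
    lintegral_mul_const' _ _ (ENNReal.inv_ne_top.mpr hne2), g_marginal_tonelli m n s hs, ← hB,
    hA2, hA1]
  rw [hA2] at hne1
  rw [hA1] at hne2
  have hAt : (∫⁻ y, ENNReal.ofReal (Real.exp (energy n y))) ≠ ⊤ := by
    rw [← hA1]; exact ENNReal.ofReal_ne_top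
  have hBt0 : B ≠ 0 := right_ne_zero_of_mul hne1
  have hBt : B ≠ ⊤ := by
    intro h
    have h3 : ENNReal.ofReal (∫ x, Real.exp (energyM m n x)) = ⊤ := by
      rw [hA2, h, ENNReal.mul_top hne2]
    exact ENNReal.ofReal_ne_top h3
  rw [ENNReal.mul_inv (Or.inl hne2) (Or.inl hAt), mul_mul_mul_comm, ENNReal.mul_inv_cancel hBt0 hBt,
    mul_one]

end Pool.Agent.Helper228.GM
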