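import Pool.Agent.Helper228.GM.Defs
import Pool.Agent.Helper228.GM.P_m_model
import Pool.Agent.Helper228.GM.P_g_marginal
import Pool.Agent.Helper228.GM.P_g_base
import Pool.Agent.Helper228.GM.P_g_basic

/-!
Definitions for the quartic one-matrix model `P(A) = A^4/4 - A^2` (MP_58f2bb_an).
-/

open MeasureTheory Filter Topology

namespace Pool.Agent.Helper228.GM
open Pool.Agent.Helper228.MM


theorem gz_ofReal_prod (L : List ℝ) : ((L.prod : ℝ) : ℂ) = (L.map fun r : ℝ => (r : ℂ)).prod := by
  induction L with
  | nil => simp
  | cons a L ih => simp [ih]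

theorem gz_cont (n : ℕ) (ks : List ℕ) :
    Continuous (fun y : Fin n → Fin n → ℝ => (ks.map fun k => tk n k y).prod) := by
  induction ks with
  | nil => simpa using continuous_const
  | cons a ks ih =>
    simp only [List.map_cons, List.prod_cons]
    exact (m_model.2.2.2.1 n a).mul ih

theorem g_zero (m : ℕ) (L : List (Word m)) (hL : ∀ w ∈ L, ∀ a ∈ w, a = 0) :
    Tendsto (fun n : ℕ => ∫ x, tl m n L x ∂(modelM m n)) atTop
      (𝓝 ((L.map fun w => ((MM.mom w.length : ℝ) : ℂ)).prod)) := by
  have hlim := (Complex.continuous_ofReal.tendsto _).comp (g_base (L.map List.length))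
  have e1 : (((((L.map List.length).map MM.mom).prod : ℝ)) : ℂ) =
      (L.map fun w => ((MM.mom w.length : ℝ) : ℂ)).prod := by
    rw [gz_ofReal_prod, List.map_map, List.map_map]
    rfl
  rw [e1] at hlim
  refine hlim.congr' ?_
  filter_upwards [eventually_ge_atTop 1] with n hn
  have e2 : ∀ x : Conf m n, tl m n L x =
      ((((L.map List.length).map fun k => tk n k (x 0)).prod : ℝ) : ℂ) := by
    intro x
    unfold tl
    rw [gz_ofReal_prod, List.map_map, List.map_map]
    congr 1
    refine List.map_congr_left fun w hw => ?_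
    have h1 : w = List.replicate w.length 0 := List.eq_replicate_iff.2 ⟨rfl, fun a ha => hL w hw a ha⟩
    have h2 := (g_basic m n hn x).2.2.2.1 w.length
    rw [← h1] at h2
    exact h2
  simp only [Function.comp]
  simp only [e2]
  rw [← integral_complex_ofReal, ← g_marginal m n hn]
  have hmeas : AEMeasurable (fun x : Conf m n => x 0) (modelM m n) :=
    (measurable_pi_apply 0).aemeasurable
  exact integral_map hmeas
    ((Complex.continuous_ofReal.comp (gz_cont n (L.map List.length))).aestronglyMeasurable)

end Pool.Agent.Helper228.GM
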