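import Pool.Agent.Helper228.GM.Defs
import Pool.Agent.Helper228.GM.P_g_basic
import Pool.Agent.Helper228.GM.P_g_zero
import Pool.Agent.Helper228.GM.P_g_step

/-!
Definitions for the quartic one-matrix model `P(A) = A^4/4 - A^2` (MP_58f2bb_an).
-/

open MeasureTheory Filter Topology

namespace Pool.Agent.Helper228.GM
open Pool.Agent.Helper228.MM


/-- number of nonzero letters of a word -/
def g_conv_c {m : ℕ} (w : Word m) : ℕ := w.countP (fun a => decide (a ≠ 0))

/-- number of nonzero letters of a list of words -/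
def g_conv_C {m : ℕ} (L : List (Word m)) : ℕ := (L.map g_conv_c).sum

theorem g_conv_c_append {m : ℕ} (u v : Word m) :
    g_conv_c (u ++ v) = g_conv_c u + g_conv_c v := List.countP_append

theorem g_conv_c_cons {m : ℕ} (i : Fin (m + 1)) (hi : i ≠ 0) (v : Word m) :
    g_conv_c (i :: v) = g_conv_c v + 1 := by
  unfold g_conv_c
  rw [List.countP_cons_of_pos]
  simpa using hi

theorem g_conv_C_cons {m : ℕ} (w : Word m) (L : List (Word m)) :
    g_conv_C (w :: L) = g_conv_c w + g_conv_C L := by
  unfold g_conv_C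
  rw [List.map_cons, List.sum_cons]

theorem g_conv_C_perm {m : ℕ} {L L' : List (Word m)} (h : L.Perm L') :
    g_conv_C L = g_conv_C L' := (h.map _).sum_eq

theorem g_conv_splits {m : ℕ} (i : Fin (m + 1)) (w : Word m) :
    ∀ z ∈ splits i w, w = z.1 ++ i :: z.2 := by
  induction w with
  | nil =>
    intro z hz
    unfold splits at hz
    simp at hz
  | cons a w ih =>
    intro z hz
    unfold splits at hz
    rw [List.mem_append] at hz
    rcases hz with hz | hz
    · by_cases h : a = i
      · rw [if_pos h, List.mem_singleton] at hz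
        rw [hz, h]
        rfl
      · rw [if_neg h] at hz
        simp at hz
    · rw [List.mem_map] at hz
      obtain ⟨y, hy, rfl⟩ := hz
      have := ih y hy
      change a :: w = (a :: y.1) ++ i :: y.2
      rw [List.cons_append, ← this]

theorem g_conv_picks {α : Type} (L : List α) :
    ∀ z ∈ picks L, (z.1 :: z.2).Perm L := by
  induction L with
  | nil =>
    intro z hz
    unfold picks at hz
    simp at hz
  | cons a L ih =>
    intro z hz
    unfold picks at hz
    rw [List.mem_cons] at hz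
    rcases hz with hz | hz
    · rw [hz]
    · rw [List.mem_map] at hz
      obtain ⟨y, hy, rfl⟩ := hz
      have := ih y hy
      change (y.1 :: a :: y.2).Perm (a :: L)
      exact (List.Perm.swap _ _ _).trans (this.cons a)

theorem g_conv_norm {m : ℕ} (L : List (Word m)) (h : ¬ ∀ w ∈ L, ∀ a ∈ w, a = 0) :
    ∃ (i : Fin (m + 1)) (u v : Word m) (L' : List (Word m)), i ≠ 0 ∧
      L.Perm ((u ++ i :: v) :: L') := by
  classical
  push Not at h
  obtain ⟨w, hw, a, ha, h0⟩ := h
  obtain ⟨u, v, huv⟩ := List.append_of_mem ha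
  refine ⟨a, u, v, L.erase w, h0, ?_⟩
  rw [← huv]
  exact List.perm_cons_erase hw

theorem g_conv_tl_perm (m n : ℕ) {L L' : List (Word m)} (h : L.Perm L') (x : Conf m n) :
    tl m n L x = tl m n L' x := (h.map _).prod_eq

theorem g_conv_tl_cyc (m n : ℕ) (hn : 1 ≤ n) (u v : Word m) (L : List (Word m)) (x : Conf m n) :
    tl m n ((u ++ v) :: L) x = tl m n ((v ++ u) :: L) x := by
  unfold tl
  rw [List.map_cons, List.map_cons, List.prod_cons, List.prod_cons, (g_basic m n hn x).2.1 u v]

/-- expectation of a product of traces -/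
noncomputable def g_conv_E (m n : ℕ) (L : List (Word m)) : ℂ :=
  ∫ x, tl m n L x ∂(modelM m n)

theorem g_conv_E_norm (m n : ℕ) (hn : 1 ≤ n) (i : Fin (m + 1)) (u v : Word m)
    (L L' : List (Word m)) (h : L.Perm ((u ++ i :: v) :: L')) :
    g_conv_E m n L = g_conv_E m n ((i :: (v ++ u)) :: L') := by
  unfold g_conv_E
  congr 1
  funext x
  rw [g_conv_tl_perm m n h x, g_conv_tl_cyc m n hn]
  rfl

theorem g_conv_tls {ι : Type} (l : List ι) (F : ι → ℕ → ℂ) (a : ι → ℂ)
    (h : ∀ i ∈ l, Tendsto (F i) atTop (𝓝 (a i))) :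
    Tendsto (fun n => (l.map fun c => F c n).sum) atTop (𝓝 ((l.map a).sum)) := by
  induction l with
  | nil => simp
  | cons b l ih =>
    simp only [List.map_cons, List.sum_cons]
    exact (h b (by simp)).add (ih (fun i hi => h i (List.mem_cons_of_mem _ hi)))

theorem g_conv_step (m : ℕ) (i : Fin (m + 1)) (hi : i ≠ 0) (w : Word m) (L : List (Word m))
    (Lm : List (Word m) → ℂ)
    (H : ∀ z ∈ splits i w, Tendsto (fun n => g_conv_E m n (z.1 :: z.2 :: L)) atTop
      (𝓝 (Lm (z.1 :: z.2 :: L))))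
    (H2 : ∀ z ∈ picks L, ∀ y ∈ splits i z.1, Tendsto
      (fun n => g_conv_E m n ((y.2 ++ y.1 ++ w) :: z.2)) atTop
        (𝓝 (Lm ((y.2 ++ y.1 ++ w) :: z.2)))) :
    Tendsto (fun n => g_conv_E m n ((i :: w) :: L)) atTop
      (𝓝 (1 / 2 * ((splits i w).map fun z => Lm (z.1 :: z.2 :: L)).sum)) := by
  have h1 : Tendsto (fun n => ((splits i w).map fun z => g_conv_E m n (z.1 :: z.2 :: L)).sum) atTop
      (𝓝 ((splits i w).map fun z => Lm (z.1 :: z.2 :: L)).sum) :=
    g_conv_tls (splits i w) (fun z n => g_conv_E m n (z.1 :: z.2 :: L))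
      (fun z => Lm (z.1 :: z.2 :: L)) H
  have h2 : Tendsto (fun n => ((picks L).map fun z => ((splits i z.1).map fun y =>
      g_conv_E m n ((y.2 ++ y.1 ++ w) :: z.2)).sum).sum) atTop
      (𝓝 ((picks L).map fun z => ((splits i z.1).map fun y =>
      Lm ((y.2 ++ y.1 ++ w) :: z.2)).sum).sum) :=
    g_conv_tls (picks L) (fun z n => ((splits i z.1).map fun y =>
      g_conv_E m n ((y.2 ++ y.1 ++ w) :: z.2)).sum)
      (fun z => ((splits i z.1).map fun y => Lm ((y.2 ++ y.1 ++ w) :: z.2)).sum)
      (fun z hz => g_conv_tls (splits i z.1) (fun y n => g_conv_E m n ((y.2 ++ y.1 ++ w) :: z.2))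
        (fun y => Lm ((y.2 ++ y.1 ++ w) :: z.2)) (H2 z hz))
  have h3 : Tendsto (fun n : ℕ => (1 / (n : ℂ) ^ 2)) atTop (𝓝 0) := by
    have h4 : Tendsto (fun n : ℕ => (1 / (n : ℂ))) atTop (𝓝 0) := tendsto_one_div_atTop_nhds_zero_nat
    have h5 := h4.mul h4
    rw [mul_zero] at h5
    refine h5.congr (fun n => ?_)
    rw [div_mul_div_comm, one_mul, sq]
  have h6 := ((h1.add (h3.mul h2)).const_mul (1 / 2 : ℂ))
  rw [zero_mul, add_zero] at h6
  refine h6.congr' ?_
  filter_upwards [eventually_ge_atTop 1] with n hn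
  have h7 := g_step m n hn i hi w L
  have h8 : g_conv_E m n ((i :: w) :: L) = 1 / 2 * (2 * g_conv_E m n ((i :: w) :: L)) := by ring
  rw [h8]
  congr 1
  exact h7.symm

theorem g_conv_C_split {m : ℕ} (i : Fin (m + 1)) (hi : i ≠ 0) (w : Word m) (L : List (Word m))
    (z : Word m × Word m) (hz : z ∈ splits i w) :
    g_conv_C (z.1 :: z.2 :: L) < g_conv_C ((i :: w) :: L) := by
  have h := g_conv_splits i w z hz
  have h1 : g_conv_c w = g_conv_c z.1 + (g_conv_c z.2 + 1) := by
    rw [← g_conv_c_cons i hi, ← g_conv_c_append, ← h]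
  rw [g_conv_C_cons, g_conv_C_cons, g_conv_C_cons, g_conv_c_cons i hi]
  omega

theorem g_conv_C_pick {m : ℕ} (i : Fin (m + 1)) (hi : i ≠ 0) (w : Word m) (L : List (Word m))
    (z : Word m × List (Word m)) (hz : z ∈ picks L) (y : Word m × Word m)
    (hy : y ∈ splits i z.1) :
    g_conv_C ((y.2 ++ y.1 ++ w) :: z.2) < g_conv_C ((i :: w) :: L) := by
  have h := g_conv_splits i z.1 y hy
  have h1 : g_conv_c z.1 = g_conv_c y.1 + (g_conv_c y.2 + 1) := by
    rw [← g_conv_c_cons i hi, ← g_conv_c_append, ← h]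
  have h2 := g_conv_C_perm (g_conv_picks L z hz)
  rw [g_conv_C_cons] at h2
  rw [g_conv_C_cons, g_conv_C_cons, g_conv_c_cons i hi, g_conv_c_append, g_conv_c_append]
  omega

theorem g_conv_C_norm {m : ℕ} (i : Fin (m + 1)) (hi : i ≠ 0) (u v : Word m)
    (L L' : List (Word m)) (h : L.Perm ((u ++ i :: v) :: L')) :
    g_conv_C L = g_conv_C ((i :: (v ++ u)) :: L') := by
  rw [g_conv_C_perm h, g_conv_C_cons, g_conv_C_cons, g_conv_c_append, g_conv_c_cons i hi,
    g_conv_c_cons i hi, g_conv_c_append]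
  omega

/-- the limit -/
noncomputable def g_conv_Lm (m : ℕ) (L : List (Word m)) : ℂ :=
  limUnder atTop (fun n => g_conv_E m n L)

theorem g_conv_lim (m N : ℕ) : ∀ L : List (Word m), g_conv_C L < N →
    Tendsto (fun n => g_conv_E m n L) atTop (𝓝 (g_conv_Lm m L)) := by
  induction N with
  | zero => intro L hL; omega
  | succ N ih =>
    intro L hL
    by_cases h : ∀ w ∈ L, ∀ a ∈ w, a = 0
    · exact tendsto_nhds_limUnder ⟨_, g_zero m L h⟩
    · obtain ⟨i, u, v, L', hi, hp⟩ := g_conv_norm L h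
      have hC := g_conv_C_norm i hi u v L L' hp
      apply tendsto_nhds_limUnder
      refine ⟨_, (g_conv_step m i hi (v ++ u) L' (g_conv_Lm m) ?_ ?_).congr' ?_⟩
      · intro z hz
        apply ih
        have := g_conv_C_split i hi (v ++ u) L' z hz
        omega
      · intro z hz y hy
        apply ih
        have := g_conv_C_pick i hi (v ++ u) L' z hz y hy
        omega
      · filter_upwards [eventually_ge_atTop 1] with n hn
        exact (g_conv_E_norm m n hn i u v L L' hp).symm

theorem g_conv_Lm_norm (m : ℕ) (i : Fin (m + 1)) (u v : Word m)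
    (L L' : List (Word m)) (h : L.Perm ((u ++ i :: v) :: L')) :
    g_conv_Lm m L = g_conv_Lm m ((i :: (v ++ u)) :: L') := by
  have h1 := g_conv_lim m (g_conv_C L + 1) L (by omega)
  have h2 := g_conv_lim m (g_conv_C ((i :: (v ++ u)) :: L') + 1) ((i :: (v ++ u)) :: L') (by omega)
  refine tendsto_nhds_unique h1 (h2.congr' ?_)
  filter_upwards [eventually_ge_atTop 1] with n hn
  exact (g_conv_E_norm m n hn i u v L L' h).symm

theorem g_conv_Lm_step (m : ℕ) (i : Fin (m + 1)) (hi : i ≠ 0) (w : Word m) (L : List (Word m)) :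
    g_conv_Lm m ((i :: w) :: L) =
      1 / 2 * ((splits i w).map fun z => g_conv_Lm m (z.1 :: z.2 :: L)).sum := by
  refine tendsto_nhds_unique (g_conv_lim m (g_conv_C ((i :: w) :: L) + 1) _ (by omega)) ?_
  exact g_conv_step m i hi w L (g_conv_Lm m) (fun z _ => g_conv_lim m _ _ (Nat.lt_succ_self _))
    (fun z _ y _ => g_conv_lim m _ _ (Nat.lt_succ_self _))

theorem g_conv_Lm_zero (m : ℕ) (L : List (Word m)) (h : ∀ w ∈ L, ∀ a ∈ w, a = 0) :
    g_conv_Lm m L = ((L.map fun w => ((MM.mom w.length : ℝ) : ℂ)).prod) :=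
  tendsto_nhds_unique (g_conv_lim m (g_conv_C L + 1) _ (by omega)) (g_zero m L h)

theorem g_conv_mul (m N : ℕ) : ∀ L : List (Word m), g_conv_C L < N →
    g_conv_Lm m L = (L.map fun w => g_conv_Lm m [w]).prod := by
  induction N with
  | zero => intro L hL; omega
  | succ N ih =>
    intro L hL
    by_cases h : ∀ w ∈ L, ∀ a ∈ w, a = 0
    · rw [g_conv_Lm_zero m L h]
      congr 1
      apply List.map_congr_left
      intro w hw
      rw [g_conv_Lm_zero m [w] (by
        intro w' hw'
        rw [List.mem_singleton] at hw'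
        rw [hw']
        exact h w hw)]
      simp
    · obtain ⟨i, u, v, L', hi, hp⟩ := g_conv_norm L h
      have hC := g_conv_C_norm i hi u v L L' hp
      have e1 : (L.map fun w => g_conv_Lm m [w]).prod =
          g_conv_Lm m [i :: (v ++ u)] * (L'.map fun w => g_conv_Lm m [w]).prod := by
        rw [(hp.map _).prod_eq, List.map_cons, List.prod_cons,
          g_conv_Lm_norm m i u v [u ++ i :: v] [] (List.Perm.refl _)]
      rw [e1, g_conv_Lm_norm m i u v L L' hp, g_conv_Lm_step m i hi, g_conv_Lm_step m i hi,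
        mul_assoc]
      congr 1
      rw [← List.sum_map_mul_right]
      congr 1
      apply List.map_congr_left
      intro z hz
      have h1 := g_conv_C_split i hi (v ++ u) L' z hz
      have h2 : g_conv_C [z.1, z.2] ≤ g_conv_C (z.1 :: z.2 :: L') := by
        rw [g_conv_C_cons, g_conv_C_cons, g_conv_C_cons, g_conv_C_cons]
        have : g_conv_C ([] : List (Word m)) = 0 := rfl
        omega
      rw [ih (z.1 :: z.2 :: L') (by omega), ih [z.1, z.2] (by omega)]
      simp only [List.map_cons, List.prod_cons, List.map_nil, List.prod_nil, mul_one]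
      ring

theorem g_conv (m : ℕ) : ∃ τ : Word m → ℂ, ∀ L : List (Word m),
    Tendsto (fun n : ℕ => ∫ x, tl m n L x ∂(modelM m n)) atTop (𝓝 ((L.map τ).prod)) := by
  refine ⟨fun w => g_conv_Lm m [w], fun L => ?_⟩
  have h := g_conv_lim m (g_conv_C L + 1) L (by omega)
  rw [g_conv_mul m (g_conv_C L + 1) L (by omega)] at h
  exact h

end Pool.Agent.Helper228.GM
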