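import Pool.Agent.Helper228.GM.Defs
import Pool.Agent.Helper228.GM.P_pb_ops
import Pool.Agent.Helper228.GM.P_pb_trace
import Pool.Agent.Helper228.GM.P_pb_all
import Pool.Agent.Helper228.GM.P_g_model
import Pool.Agent.Helper228.GM.P_g_loop_model
import Pool.Agent.Helper228.GM.P_g_basic
import Pool.Agent.Helper228.GM.P_g_zero

/-!
Definitions for the quartic one-matrix model `P(A) = A^4/4 - A^2` (MP_58f2bb_an).
-/

open MeasureTheory Filter Topology

namespace Pool.Agent.Helper228.GM
open Pool.Agent.Helper228.MM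


section gs
variable {m : ℕ} {τ : Word m → ℂ}

theorem gs_int (n : ℕ) (hn : 1 ≤ n) {g : Conf m n → ℂ} (hg : PB m n g) :
    Integrable g (modelM m n) := (g_model m n hn).2.2.2.1 g hg

theorem gs_one (h : ∀ L : List (Word m),
    Tendsto (fun n : ℕ => ∫ x, tl m n L x ∂(modelM m n)) atTop (𝓝 ((L.map τ).prod))) (w : Word m) :
    Tendsto (fun n : ℕ => ∫ x, tw m n w x ∂(modelM m n)) atTop (𝓝 (τ w)) := by
  have := h [w]
  simpa [tl] using this

theorem gs_two (h : ∀ L : List (Word m),
    Tendsto (fun n : ℕ => ∫ x, tl m n L x ∂(modelM m n)) atTop (𝓝 ((L.map τ).prod)))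
    (u v : Word m) :
    Tendsto (fun n : ℕ => ∫ x, tw m n u x * tw m n v x ∂(modelM m n)) atTop (𝓝 (τ u * τ v)) := by
  have := h [u, v]
  simpa [tl] using this

theorem gs_list (h : ∀ L : List (Word m),
    Tendsto (fun n : ℕ => ∫ x, tl m n L x ∂(modelM m n)) atTop (𝓝 ((L.map τ).prod)))
    (l : List (Word m × Word m)) :
    Tendsto (fun n : ℕ => ∫ x, (l.map fun z => tw m n z.1 x * tw m n z.2 x).sum ∂(modelM m n))
      atTop (𝓝 ((l.map fun z => τ z.1 * τ z.2).sum)) := by
  induction l with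
  | nil => simp
  | cons a l ih =>
    have h1 := (gs_two h a.1 a.2).add ih
    rw [List.map_cons, List.sum_cons]
    refine h1.congr' ?_
    filter_upwards [eventually_ge_atTop 1] with n hn
    simp only [List.map_cons, List.sum_cons]
    rw [integral_add]
    · exact gs_int n hn ((pb_ops m n).2.2.2.1 _ _ ((pb_trace m n).2.2.1 _) ((pb_trace m n).2.2.1 _))
    · apply gs_int n hn
      exact (pb_ops m n).2.2.2.2.2.1 l (fun z x => tw m n z.1 x * tw m n z.2 x) (fun z _ =>
        (pb_ops m n).2.2.2.1 _ _ ((pb_trace m n).2.2.1 _) ((pb_trace m n).2.2.1 _))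

theorem gs_sw (n : ℕ) (hn : 1 ≤ n) (i : Fin (m + 1)) (w : Word m) :
    ∫ x, SW m n i w x ∂(modelM m n) = 0 := by
  have h1 := g_loop_model m n hn [] i w
  have h2 : (fun x => tl m n [] x * SW m n i w x) = SW m n i w := by
    funext x; simp [tl]
  have h3 : (fun x => con m n [] i w x) = fun _ => 0 := by
    funext x; simp [con, picks]
  rw [h2, h3] at h1
  rw [h1]
  simp

theorem gs_lin3 {X : Type} [MeasurableSpace X] (μ : Measure X) (A B C : X → ℂ)
    (hA : Integrable A μ) (hB : Integrable B μ) (hC : Integrable C μ) :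
    ∫ x, (A x - (B x - 2 * C x)) ∂μ = (∫ x, A x ∂μ) - ((∫ x, B x ∂μ) - 2 * ∫ x, C x ∂μ) := by
  have h2 : ∫ x, (B x - 2 * C x) ∂μ = (∫ x, B x ∂μ) - 2 * ∫ x, C x ∂μ := by
    rw [integral_sub hB (hC.const_mul 2), integral_const_mul]
  rw [← h2]
  exact integral_sub hA (hB.sub (hC.const_mul 2))

theorem gs_lin2 {X : Type} [MeasurableSpace X] (μ : Measure X) (A C : X → ℂ)
    (hA : Integrable A μ) (hC : Integrable C μ) :
    ∫ x, (A x - 2 * C x) ∂μ = (∫ x, A x ∂μ) - 2 * ∫ x, C x ∂μ := by
  rw [integral_sub hA (hC.const_mul 2), integral_const_mul]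

theorem gs_listint (n : ℕ) (hn : 1 ≤ n) (l : List (Word m × Word m)) :
    Integrable (fun x => (l.map fun z => tw m n z.1 x * tw m n z.2 x).sum) (modelM m n) := by
  apply gs_int n hn
  exact (pb_ops m n).2.2.2.2.2.1 l (fun z x => tw m n z.1 x * tw m n z.2 x) (fun z _ =>
    (pb_ops m n).2.2.2.1 _ _ ((pb_trace m n).2.2.1 _) ((pb_trace m n).2.2.1 _))

theorem gs_z0 (n : ℕ) (hn : 1 ≤ n) (w : Word m) :
    (∫ x, ((splits 0 w).map fun z => tw m n z.1 x * tw m n z.2 x).sum ∂(modelM m n)) -
        ((∫ x, tw m n (0 :: 0 :: 0 :: w) x ∂(modelM m n)) - 2 *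
          ∫ x, tw m n (0 :: w) x ∂(modelM m n)) = 0 := by
  have h1 := gs_lin3 (modelM m n) _ _ _ (gs_listint n hn (splits 0 w))
    (gs_int n hn ((pb_trace m n).2.2.1 (0 :: 0 :: 0 :: w)))
    (gs_int n hn ((pb_trace m n).2.2.1 (0 :: w)))
  refine h1.symm.trans ?_
  refine Eq.trans ?_ (gs_sw n hn 0 w)
  refine integral_congr_ae (Eventually.of_forall fun x => ?_)
  show _ = ((splits 0 w).map fun z => tw m n z.1 x * tw m n z.2 x).sum
    - Matrix.trace (dV m n 0 x * wm m n w x) / n
  rw [(g_basic m n hn x).2.2.2.2.2.2 w]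

theorem gs_zi (n : ℕ) (hn : 1 ≤ n) (i : Fin (m + 1)) (hi : i ≠ 0) (w : Word m) :
    (∫ x, ((splits i w).map fun z => tw m n z.1 x * tw m n z.2 x).sum ∂(modelM m n)) -
        (2 * ∫ x, tw m n (i :: w) x ∂(modelM m n)) = 0 := by
  have h1 := gs_lin2 (modelM m n) _ _ (gs_listint n hn (splits i w))
    (gs_int n hn ((pb_trace m n).2.2.1 (i :: w)))
  refine h1.symm.trans ?_
  refine Eq.trans ?_ (gs_sw n hn i w)
  refine integral_congr_ae (Eventually.of_forall fun x => ?_)
  show _ = ((splits i w).map fun z => tw m n z.1 x * tw m n z.2 x).sum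
    - Matrix.trace (dV m n i x * wm m n w x) / n
  rw [(g_basic m n hn x).2.2.2.2.2.1 i w hi]

end gs

theorem g_state (m : ℕ) (τ : Word m → ℂ) (h : ∀ L : List (Word m),
    Tendsto (fun n : ℕ => ∫ x, tl m n L x ∂(modelM m n)) atTop (𝓝 ((L.map τ).prod))) :
    NCState m τ := by
  have ev : ∀ᶠ n : ℕ in atTop, 1 ≤ n := eventually_ge_atTop 1
  refine ⟨?_, ?_, ?_, ?_, ?_, ?_, ?_⟩
  · -- one
    refine tendsto_nhds_unique (gs_one h []) ?_
    refine tendsto_const_nhds.congr' ?_
    filter_upwards [ev] with n hn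
    have := (g_model m n hn).1
    have : (fun x => tw m n [] x) = fun _ => 1 := funext fun x => (g_basic m n hn x).1
    rw [this]
    simp
  · -- cyc
    intro u v
    refine tendsto_nhds_unique (gs_one h (u ++ v)) ((gs_one h (v ++ u)).congr' ?_)
    filter_upwards [ev] with n hn
    exact integral_congr_ae (Eventually.of_forall fun x => ((g_basic m n hn x).2.1 u v).symm)
  · -- rev
    intro w
    refine tendsto_nhds_unique (gs_one h w.reverse)
      (((Complex.continuous_conj.tendsto _).comp (gs_one h w)).congr' ?_)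
    filter_upwards [ev] with n hn
    simp only [Function.comp]
    rw [← integral_conj]
    exact integral_congr_ae (Eventually.of_forall fun x => ((g_basic m n hn x).2.2.1 w).symm)
  · -- pos
    intro s c
    have hlim : Tendsto (fun n : ℕ => (∑ u ∈ s, ∑ v ∈ s, (starRingEnd ℂ) (c u) * c v *
        ∫ x, tw m n (u.reverse ++ v) x ∂(modelM m n)).re) atTop
        (𝓝 ((∑ u ∈ s, ∑ v ∈ s, (starRingEnd ℂ) (c u) * c v * τ (u.reverse ++ v)).re)) := by
      refine (Complex.continuous_re.tendsto _).comp ?_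
      refine tendsto_finset_sum _ fun u _ => tendsto_finset_sum _ fun v _ => ?_
      exact (gs_one h _).const_mul _
    refine ge_of_tendsto hlim ?_
    filter_upwards [ev] with n hn
    have hint : ∀ u v : Word m, Integrable (fun x => (starRingEnd ℂ) (c u) * c v *
        tw m n (u.reverse ++ v) x) (modelM m n) := fun u v =>
      (gs_int n hn ((pb_trace m n).2.2.1 (u.reverse ++ v))).const_mul _
    have e1 : (∑ u ∈ s, ∑ v ∈ s, (starRingEnd ℂ) (c u) * c v *
        ∫ x, tw m n (u.reverse ++ v) x ∂(modelM m n))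
        = ∫ x, (∑ u ∈ s, ∑ v ∈ s, (starRingEnd ℂ) (c u) * c v * tw m n (u.reverse ++ v) x)
          ∂(modelM m n) := by
      rw [integral_finset_sum _ fun u _ => integrable_finset_sum _ fun v _ => hint u v]
      refine Finset.sum_congr rfl fun u _ => ?_
      rw [integral_finset_sum _ fun v _ => hint u v]
      refine Finset.sum_congr rfl fun v _ => ?_
      rw [integral_const_mul]
    rw [e1]
    have hI : Integrable (fun x => ∑ u ∈ s, ∑ v ∈ s, (starRingEnd ℂ) (c u) * c v *
        tw m n (u.reverse ++ v) x) (modelM m n) :=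
      integrable_finset_sum _ fun u _ => integrable_finset_sum _ fun v _ => hint u v
    have e2 := integral_re hI
    have e3 : (∫ x, (∑ u ∈ s, ∑ v ∈ s, (starRingEnd ℂ) (c u) * c v * tw m n (u.reverse ++ v) x)
          ∂(modelM m n)).re = ∫ x, (∑ u ∈ s, ∑ v ∈ s, (starRingEnd ℂ) (c u) * c v *
            tw m n (u.reverse ++ v) x).re ∂(modelM m n) := e2.symm
    rw [e3]
    exact integral_nonneg fun x => (g_basic m n hn x).2.2.2.2.1 s c
  · -- mom
    intro k
    have h1 := g_zero m [List.replicate k 0] (by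
      intro w hw a ha
      rw [List.mem_singleton] at hw
      subst hw
      exact List.eq_of_mem_replicate ha)
    have h2 := tendsto_nhds_unique (h [List.replicate k 0]) h1
    simpa using h2
  · -- sd0
    intro w
    have h1 : Tendsto (fun n : ℕ => (∫ x, ((splits 0 w).map fun z =>
        tw m n z.1 x * tw m n z.2 x).sum ∂(modelM m n)) -
        ((∫ x, tw m n (0 :: 0 :: 0 :: w) x ∂(modelM m n)) - 2 *
          ∫ x, tw m n (0 :: w) x ∂(modelM m n))) atTop
        (𝓝 (((splits 0 w).map fun z => τ z.1 * τ z.2).sum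
          - (τ (0 :: 0 :: 0 :: w) - 2 * τ (0 :: w)))) :=
      (gs_list h _).sub ((gs_one h _).sub ((gs_one h _).const_mul _))
    have h2 : Tendsto (fun n : ℕ => (∫ x, ((splits 0 w).map fun z =>
        tw m n z.1 x * tw m n z.2 x).sum ∂(modelM m n)) -
        ((∫ x, tw m n (0 :: 0 :: 0 :: w) x ∂(modelM m n)) - 2 *
          ∫ x, tw m n (0 :: w) x ∂(modelM m n))) atTop (𝓝 0) := by
      refine tendsto_const_nhds.congr' ?_
      filter_upwards [ev] with n hn
      exact (gs_z0 n hn w).symm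
    exact sub_eq_zero.1 (tendsto_nhds_unique h1 h2)
  · -- sdi
    intro i hi w
    have h1 : Tendsto (fun n : ℕ => (∫ x, ((splits i w).map fun z =>
        tw m n z.1 x * tw m n z.2 x).sum ∂(modelM m n)) -
        (2 * ∫ x, tw m n (i :: w) x ∂(modelM m n))) atTop
        (𝓝 (((splits i w).map fun z => τ z.1 * τ z.2).sum - (2 * τ (i :: w)))) :=
      (gs_list h _).sub ((gs_one h _).const_mul _)
    have h2 : Tendsto (fun n : ℕ => (∫ x, ((splits i w).map fun z =>
        tw m n z.1 x * tw m n z.2 x).sum ∂(modelM m n)) -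
        (2 * ∫ x, tw m n (i :: w) x ∂(modelM m n))) atTop (𝓝 0) := by
      refine tendsto_const_nhds.congr' ?_
      filter_upwards [ev] with n hn
      exact (gs_zi n hn i hi w).symm
    exact sub_eq_zero.1 (tendsto_nhds_unique h1 h2)

end Pool.Agent.Helper228.GM
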