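import Pool.Agent.Helper228.GM.P_g_L2
import Pool.Agent.Helper228.GM.P_g_Lp
import Pool.Agent.Helper228.GM.P_g_alg
import Pool.Agent.Helper228.GM.P_g_base
import Pool.Agent.Helper228.GM.P_g_basic
import Pool.Agent.Helper228.GM.P_g_cont
import Pool.Agent.Helper228.GM.P_g_conv
import Pool.Agent.Helper228.GM.P_g_deriv
import Pool.Agent.Helper228.GM.P_g_energy_deriv
import Pool.Agent.Helper228.GM.P_g_energy_eq
import Pool.Agent.Helper228.GM.P_g_entry
import Pool.Agent.Helper228.GM.P_g_ibp
import Pool.Agent.Helper228.GM.P_g_integrable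
import Pool.Agent.Helper228.GM.P_g_list_deriv
import Pool.Agent.Helper228.GM.P_g_loop
import Pool.Agent.Helper228.GM.P_g_loop_model
import Pool.Agent.Helper228.GM.P_g_marginal
import Pool.Agent.Helper228.GM.P_g_model
import Pool.Agent.Helper228.GM.P_g_state
import Pool.Agent.Helper228.GM.P_g_step
import Pool.Agent.Helper228.GM.P_g_weight
import Pool.Agent.Helper228.GM.P_g_zero
import Pool.Agent.Helper228.GM.P_m_contr
import Pool.Agent.Helper228.GM.P_m_herm
import Pool.Agent.Helper228.GM.P_m_model
import Pool.Agent.Helper228.GM.P_pb_all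
import Pool.Agent.Helper228.GM.P_pb_ops
import Pool.Agent.Helper228.GM.P_pb_trace
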