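import Mathlib
import Pool.Agent.Helper228.MM.Defs

open MeasureTheory Filter Topology

namespace Pool.Agent.Helper228.GM

open Pool.Agent.Helper228.MM

/-- Words (monomials) in the `m + 1` letters `0, …, m`. -/
abbrev Word (m : ℕ) := List (Fin (m + 1))

/-- Coordinates of `m + 1` Hermitian matrices. -/
abbrev Conf (m n : ℕ) := Fin (m + 1) → Fin n → Fin n → ℝ

/-- The matrix `A_{w_1} ⋯ A_{w_k}` of a word. -/
noncomputable def wm (m n : ℕ) (w : Word m) (x : Conf m n) : Matrix (Fin n) (Fin n) ℂ :=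
  (w.map fun i => herm n (x i)).prod

/-- Normalised trace of a word. -/
noncomputable def tw (m n : ℕ) (w : Word m) (x : Conf m n) : ℂ := Matrix.trace (wm m n w x) / n

/-- All decompositions `w = u i v`. -/
def splits {m : ℕ} (i : Fin (m + 1)) : Word m → List (Word m × Word m)
  | [] => []
  | a :: w => (if a = i then [([], w)] else []) ++ (splits i w).map fun z => (a :: z.1, z.2)

/-- All ways of picking an element of a list. -/
def picks {α : Type} : List α → List (α × List α)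
  | [] => []
  | a :: L => (a, L) :: (picks L).map fun z => (z.1, a :: z.2)

/-- The exponent `- n Tr P(A)`, `P = A_0^4/4 - A_0^2 + ∑_{i ≥ 1} A_i^2`. -/
noncomputable def energyM (m n : ℕ) (x : Conf m n) : ℝ :=
  -(n : ℝ) * (Matrix.trace ((1 / 4 : ℂ) • herm n (x 0) ^ 4 - herm n (x 0) ^ 2
    + ∑ i : Fin m, herm n (x i.succ) ^ 2)).re

/-- The matrix model. -/
noncomputable def modelM (m n : ℕ) : Measure (Conf m n) := volume.tilted (energyM m n)

/-- `∑_i Tr A_i^2`. -/
noncomputable def qfM (m n : ℕ) (x : Conf m n) : ℝ := ∑ i, qf n (x i)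

/-- The cyclic gradient `(D_i P)(A)`. -/
noncomputable def dV (m n : ℕ) (i : Fin (m + 1)) (x : Conf m n) : Matrix (Fin n) (Fin n) ℂ :=
  if i = 0 then herm n (x 0) ^ 3 - (2 : ℂ) • herm n (x 0) else (2 : ℂ) • herm n (x i)

/-- `S_{i,w} = ∑_{w = u i v} tr(u) tr(v) - tr(D_iP w)`. -/
noncomputable def SW (m n : ℕ) (i : Fin (m + 1)) (w : Word m) (x : Conf m n) : ℂ :=
  ((splits i w).map fun z => tw m n z.1 x * tw m n z.2 x).sum
    - Matrix.trace (dV m n i x * wm m n w x) / n

/-- Product of the normalised traces of a list of words. -/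
noncomputable def tl (m n : ℕ) (L : List (Word m)) (x : Conf m n) : ℂ :=
  (L.map fun w => tw m n w x).prod

/-- Coordinate direction. -/
def dir (m n : ℕ) (i : Fin (m + 1)) (j k : Fin n) : Conf m n :=
  Pi.single i (Pi.single j (Pi.single k 1))

/-- Derivative of `tl L` in the direction `dir i j k`. -/
noncomputable def dtl (m n : ℕ) (L : List (Word m)) (i : Fin (m + 1)) (j k : Fin n)
    (x : Conf m n) : ℂ :=
  ((picks L).map fun z => ((splits i z.1).map fun y =>
    Matrix.trace (wm m n y.1 x * hb n j k * wm m n y.2 x) / n).sum * tl m n z.2 x).sum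

/-- The contraction term. -/
noncomputable def con (m n : ℕ) (L : List (Word m)) (i : Fin (m + 1)) (w : Word m)
    (x : Conf m n) : ℂ :=
  ((picks L).map fun z => ((splits i z.1).map fun y =>
    tw m n (y.2 ++ y.1 ++ w) x).sum * tl m n z.2 x).sum

/-- Continuous and polynomially bounded. -/
def PB (m n : ℕ) (f : Conf m n → ℂ) : Prop :=
  Continuous f ∧ ∃ (C : ℝ) (N : ℕ), 0 ≤ C ∧ ∀ x, ‖f x‖ ≤ C * (1 + qfM m n x) ^ N

/-- Limit state on the words. -/
structure NCState (m : ℕ) (τ : Word m → ℂ) : Prop where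
  one : τ [] = 1
  cyc : ∀ u v, τ (u ++ v) = τ (v ++ u)
  rev : ∀ w, τ w.reverse = (starRingEnd ℂ) (τ w)
  pos : ∀ (s : Finset (Word m)) (c : Word m → ℂ),
    0 ≤ (∑ u ∈ s, ∑ v ∈ s, (starRingEnd ℂ) (c u) * c v * τ (u.reverse ++ v)).re
  mom : ∀ k, τ (List.replicate k 0) = ((MM.mom k : ℝ) : ℂ)
  sd0 : ∀ w, ((splits 0 w).map fun z => τ z.1 * τ z.2).sum
    = τ (0 :: 0 :: 0 :: w) - 2 * τ (0 :: w)
  sdi : ∀ i : Fin (m + 1), i ≠ 0 → ∀ w,
    ((splits i w).map fun z => τ z.1 * τ z.2).sum = 2 * τ (i :: w)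

end Pool.Agent.Helper228.GM
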