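import Pool.Agent.Helper228.GM.Defs
import Pool.Agent.Helper228.GM.P_pb_ops
import Pool.Agent.Helper228.GM.P_pb_trace
import Pool.Agent.Helper228.GM.P_pb_all
import Pool.Agent.Helper228.GM.P_g_model
import Pool.Agent.Helper228.GM.P_g_basic

/-!
Definitions for the quartic one-matrix model `P(A) = A^4/4 - A^2` (MP_58f2bb_an).
-/

open MeasureTheory Filter Topology

namespace Pool.Agent.Helper228.GM
open Pool.Agent.Helper228.MM


theorem g_L2 (m : ℕ) (τ : Word m → ℂ) (h : ∀ L : List (Word m),
    Tendsto (fun n : ℕ => ∫ x, tl m n L x ∂(modelM m n)) atTop (𝓝 ((L.map τ).prod)))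
    (w : Word m) :
    Tendsto (fun n : ℕ => ∫ x, ‖tw m n w x - τ w‖ ^ 2 ∂(modelM m n)) atTop (𝓝 0) := by
  set t : ℂ := τ w with ht
  have hev : ∀ᶠ n : ℕ in atTop, ((∫ x, ‖tw m n w x - t‖ ^ 2 ∂(modelM m n) : ℝ) : ℂ) =
      (∫ x, tl m n [w, w.reverse] x ∂(modelM m n))
        - starRingEnd ℂ t * (∫ x, tl m n [w] x ∂(modelM m n))
        - t * (∫ x, tl m n [w.reverse] x ∂(modelM m n)) + t * starRingEnd ℂ t := by
    filter_upwards [eventually_ge_atTop 1] with n hn
    obtain ⟨hprob, -, -, hint, -⟩ := g_model m n hn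
    have hi : ∀ L : List (Word m), Integrable (tl m n L) (modelM m n) :=
      fun L => hint _ ((pb_all m n).1 L)
    rw [← integral_complex_ofReal]
    have hpt : ∀ x, ((‖tw m n w x - t‖ ^ 2 : ℝ) : ℂ) = tl m n [w, w.reverse] x
        - starRingEnd ℂ t * tl m n [w] x - t * tl m n [w.reverse] x + t * starRingEnd ℂ t := by
      intro x
      have hr := (g_basic m n hn x).2.2.1 w
      simp only [tl, List.map_cons, List.map_nil, List.prod_cons, List.prod_nil, mul_one]
      rw [← Complex.normSq_eq_norm_sq, ← Complex.mul_conj, hr, map_sub]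
      ring
    simp only [hpt]
    rw [integral_add, integral_sub, integral_sub, integral_const_mul, integral_const_mul,
      integral_const]
    · simp
    · exact hi _
    · exact (hi _).const_mul _
    · exact (hi _).sub ((hi _).const_mul _)
    · exact (hi _).const_mul _
    · exact ((hi _).sub ((hi _).const_mul _)).sub ((hi _).const_mul _)
    · exact integrable_const _
  have h1 := h [w, w.reverse]
  have h2 := h [w]
  have h3 := h [w.reverse]
  simp only [List.map_cons, List.map_nil, List.prod_cons, List.prod_nil, mul_one] at h1 h2 h3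
  have h4 := ((h1.sub (h2.const_mul (starRingEnd ℂ t))).sub (h3.const_mul t)).add_const
    (t * starRingEnd ℂ t)
  have h5 : τ w * τ w.reverse - starRingEnd ℂ t * τ w - t * τ w.reverse + t * starRingEnd ℂ t = 0 := by
    rw [← ht]; ring
  rw [h5] at h4
  have h6 : Tendsto (fun n : ℕ => ((∫ x, ‖tw m n w x - t‖ ^ 2 ∂(modelM m n) : ℝ) : ℂ)) atTop
      (𝓝 0) := h4.congr' (by filter_upwards [hev] with n hn; exact hn.symm)
  have h7 := (Complex.continuous_re.tendsto 0).comp h6
  rw [Complex.zero_re] at h7
  exact h7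

end Pool.Agent.Helper228.GM
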